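import Pool.Agent.X101.NR.Four

/-! A family of admissible functions: total mass one, small `H^{1/2}` norm, vanishing at zero. -/

set_option autoImplicit false

open Set MeasureTheory

namespace Pool.Agent.X101.NR

/-- the bump -/
noncomputable def bb : ContDiffBump (3 / 4 : ℝ) := ⟨1 / 16, 1 / 8, by norm_num, by norm_num⟩

lemma bb_nonneg (x : ℝ) : 0 ≤ bb x := bb.nonneg

lemma bb_le (x : ℝ) : bb x ≤ 1 := bb.le_one

lemma bb_zero {x : ℝ} (h : x ≤ 5 / 8 ∨ 7 / 8 ≤ x) : bb x = 0 := by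
  apply bb.zero_of_le_dist
  rw [Real.dist_eq]
  show (1 / 8 : ℝ) ≤ _
  rcases h with h | h
  · rw [abs_of_nonpos (by linarith)]; linarith
  · rw [abs_of_nonneg (by linarith)]; linarith

lemma bb_cont : Continuous (fun x => bb x) := bb.continuous

/-- the sum of the dilates -/
noncomputable def uu (J : ℕ) (t : ℝ) : ℝ :=
  ∑ j ∈ Finset.range J, 2 ^ j * (bb (2 ^ j * t) + bb (-(2 ^ j * t)))

lemma uu_nonneg (J : ℕ) (t : ℝ) : 0 ≤ uu J t :=
  Finset.sum_nonneg fun j _ => mul_nonneg (by positivity) (add_nonneg (bb_nonneg _) (bb_nonneg _))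

lemma uu_adm (J : ℕ) : Adm (uu J) := by
  refine ⟨?_, ?_, ?_⟩
  · unfold uu
    apply ContDiff.sum
    intro j _
    have h1 : ContDiff ℝ (⊤ : ℕ∞) (fun t : ℝ => (2 : ℝ) ^ j * t) := contDiff_const.mul contDiff_id
    have hb : ContDiff ℝ (⊤ : ℕ∞) (fun x => bb x) := bb.contDiff
    exact contDiff_const.mul ((hb.comp h1).add (hb.comp h1.neg))
  · intro t
    unfold uu
    refine Finset.sum_congr rfl fun j _ => ?_
    rw [mul_neg, neg_neg]
    ring
  · intro t ht
    unfold uu
    apply Finset.sum_eq_zero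
    intro j _
    have h2 : (1 : ℝ) ≤ 2 ^ j := one_le_pow₀ (by norm_num)
    rcases le_or_gt 0 t with h0 | h0
    · rw [abs_of_nonneg h0] at ht
      have h3 : 1 ≤ 2 ^ j * t := by nlinarith
      rw [bb_zero (Or.inr (by linarith)), bb_zero (Or.inl (by linarith))]
      ring
    · rw [abs_of_neg h0] at ht
      have h3 : 2 ^ j * t ≤ -1 := by nlinarith
      rw [bb_zero (Or.inl (by linarith)), bb_zero (Or.inr (by linarith))]
      ring

lemma uu_zero (J : ℕ) : uu J 0 = 0 := by
  unfold uu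
  apply Finset.sum_eq_zero
  intro j _
  rw [mul_zero, neg_zero, bb_zero (Or.inl (by norm_num))]
  ring

lemma uu_pos {J : ℕ} {t : ℝ} (ht : 0 ≤ t) : uu J t = ∑ j ∈ Finset.range J, 2 ^ j * bb (2 ^ j * t) := by
  unfold uu
  refine Finset.sum_congr rfl fun j _ => ?_
  have h : 0 ≤ (2 : ℝ) ^ j * t := by positivity
  rw [bb_zero (x := -(2 ^ j * t)) (Or.inl (by linarith)), add_zero]

lemma bb_cross {t : ℝ} {i j : ℕ} (hij : i < j) (ht : 0 ≤ t) : bb (2 ^ i * t) * bb (2 ^ j * t) = 0 := by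
  by_cases h : 2 ^ i * t ≤ 5 / 8
  · rw [bb_zero (Or.inl h), zero_mul]
  · rw [not_le] at h
    have h1 : (2 : ℝ) * (2 ^ i * t) ≤ 2 ^ j * t := by
      rw [← mul_assoc]
      apply mul_le_mul_of_nonneg_right _ ht
      rw [← pow_succ']
      exact pow_le_pow_right₀ (by norm_num) (by omega)
    rw [bb_zero (x := 2 ^ j * t) (Or.inr (by linarith)), mul_zero]

lemma uu_sq {J : ℕ} {t : ℝ} (ht : 0 ≤ t) : uu J t ^ 2 = ∑ j ∈ Finset.range J, (2 ^ j * bb (2 ^ j * t)) ^ 2 := by
  rw [uu_pos ht, pow_two, Finset.sum_mul_sum]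
  refine Finset.sum_congr rfl fun i hi => ?_
  rw [Finset.sum_eq_single i]
  · ring
  · intro j _ hj
    rcases lt_or_gt_of_ne hj with h | h
    · have := bb_cross h ht
      calc _ = 2 ^ i * 2 ^ j * (bb (2 ^ j * t) * bb (2 ^ i * t)) := by ring
        _ = 0 := by rw [this, mul_zero]
    · have := bb_cross h ht
      calc _ = 2 ^ i * 2 ^ j * (bb (2 ^ i * t) * bb (2 ^ j * t)) := by ring
        _ = 0 := by rw [this, mul_zero]
  · intro h; exact absurd hi h

/-- the mass of the bump -/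
noncomputable def β0 : ℝ := ∫ s in (0 : ℝ)..1, bb s

lemma β0_pos : 0 < β0 := by
  unfold β0
  have h1 : ∫ s in (11 / 16 : ℝ)..(13 / 16), (1 : ℝ) ≤ ∫ s in (11 / 16 : ℝ)..(13 / 16), bb s := by
    apply intervalIntegral.integral_mono_on (by norm_num) (continuous_const.intervalIntegrable _ _)
      (bb_cont.intervalIntegrable _ _)
    intro s hs
    have h2 : bb s = 1 := by
      apply bb.one_of_mem_closedBall
      rw [Metric.mem_closedBall, Real.dist_eq]
      show _ ≤ (1 / 16 : ℝ)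
      rw [abs_le]
      constructor <;> linarith [hs.1, hs.2]
    rw [h2]
  have h2 : ∫ s in (11 / 16 : ℝ)..(13 / 16), bb s ≤ ∫ s in (0 : ℝ)..1, bb s := by
    apply intervalIntegral.integral_mono_interval (by norm_num) (by norm_num) (by norm_num)
    · exact Filter.Eventually.of_forall fun x => bb_nonneg x
    · exact bb_cont.intervalIntegrable _ _
  rw [intervalIntegral.integral_const, smul_eq_mul] at h1
  norm_num at h1
  linarith

lemma bb_int {j : ℕ} : ∫ s in (0 : ℝ)..2 ^ j, bb s = β0 := by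
  unfold β0
  have h2 : (1 : ℝ) ≤ 2 ^ j := one_le_pow₀ (by norm_num)
  rw [← intervalIntegral.integral_add_adjacent_intervals (bb_cont.intervalIntegrable 0 1)
    (bb_cont.intervalIntegrable 1 (2 ^ j))]
  have h3 : ∫ s in (1 : ℝ)..2 ^ j, bb s = 0 := by
    have h4 : ∫ s in (1 : ℝ)..2 ^ j, bb s = ∫ s in (1 : ℝ)..2 ^ j, (0 : ℝ) := by
      apply intervalIntegral.integral_congr
      intro s hs
      rw [uIcc_of_le h2] at hs
      exact bb_zero (Or.inr (by linarith [hs.1]))
    rw [h4]; simp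
  rw [h3, add_zero]

lemma uu_int (J : ℕ) : ∫ t in (0 : ℝ)..1, uu J t = J * β0 := by
  have h1 : ∫ t in (0 : ℝ)..1, uu J t =
      ∫ t in (0 : ℝ)..1, ∑ j ∈ Finset.range J, 2 ^ j * bb (2 ^ j * t) := by
    apply intervalIntegral.integral_congr
    intro t ht
    rw [uIcc_of_le zero_le_one] at ht
    exact uu_pos ht.1
  rw [h1, intervalIntegral.integral_finsetSum]
  · have h2 : ∀ j ∈ Finset.range J, ∫ t in (0 : ℝ)..1, (2 : ℝ) ^ j * bb (2 ^ j * t) = β0 := by
      intro j _
      rw [intervalIntegral.integral_const_mul,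
        intervalIntegral.integral_comp_mul_left (fun s => bb s) (by positivity), mul_zero, mul_one,
        bb_int, smul_eq_mul]
      field_simp
    rw [Finset.sum_congr rfl h2, Finset.sum_const, Finset.card_range, nsmul_eq_mul]
  · intro j _
    apply Continuous.intervalIntegrable
    exact continuous_const.mul (bb_cont.comp (continuous_const.mul continuous_id))

lemma uu_int2 (J : ℕ) : ∫ t in (0 : ℝ)..1, t * uu J t ^ 2 ≤ J * β0 := by
  have h1 : ∫ t in (0 : ℝ)..1, t * uu J t ^ 2 ≤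
      ∫ t in (0 : ℝ)..1, ∑ j ∈ Finset.range J, 2 ^ j * bb (2 ^ j * t) := by
    apply intervalIntegral.integral_mono_on zero_le_one
    · exact (continuous_id.mul ((uu_adm J).cont.pow 2)).intervalIntegrable _ _
    · apply Continuous.intervalIntegrable
      exact continuous_finsetSum _ fun j _ =>
        continuous_const.mul (bb_cont.comp (continuous_const.mul continuous_id))
    · intro t ht
      rw [uu_sq ht.1, Finset.mul_sum]
      refine Finset.sum_le_sum fun j _ => ?_
      have h0 := bb_nonneg (2 ^ j * t)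
      have h1 := bb_le (2 ^ j * t)
      by_cases h : 7 / 8 ≤ 2 ^ j * t
      · rw [bb_zero (Or.inr h)]; simp
      · rw [not_le] at h
        calc t * (2 ^ j * bb (2 ^ j * t)) ^ 2 =
            2 ^ j * bb (2 ^ j * t) * ((2 ^ j * t) * bb (2 ^ j * t)) := by ring
          _ ≤ 2 ^ j * bb (2 ^ j * t) * 1 := by
            have h2 : (2 ^ j * t) * bb (2 ^ j * t) ≤ 1 * 1 :=
              mul_le_mul (by linarith) h1 h0 zero_le_one
            have h3 : 0 ≤ 2 ^ j * bb (2 ^ j * t) := mul_nonneg (by positivity) h0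
            exact mul_le_mul_of_nonneg_left (by linarith) h3
          _ = _ := mul_one _
  refine h1.trans (le_of_eq ?_)
  rw [← uu_int J]
  apply intervalIntegral.integral_congr
  intro t ht
  rw [uIcc_of_le zero_le_one] at ht
  exact (uu_pos ht.1).symm

/-- the family -/
theorem family {v0 : ℝ} (hv : 0 < v0) : ∃ f : ℝ → ℝ, Adm f ∧ (∀ t, 0 ≤ f t) ∧ f 0 = 0 ∧
    2 * ∫ t in (0 : ℝ)..1, f t = 1 ∧ 2 * ∫ t in (0 : ℝ)..1, t * f t ^ 2 ≤ v0 := by
  have hβ := β0_pos
  obtain ⟨J, hJ⟩ := exists_nat_gt (max 1 (1 / (v0 * β0)))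
  have hJ1 : (1 : ℝ) < J := (le_max_left _ _).trans_lt hJ
  have hJ2 : 1 / (v0 * β0) < J := (le_max_right _ _).trans_lt hJ
  have hJ0 : (0 : ℝ) < J := by linarith
  set a : ℝ := 1 / (2 * (J * β0)) with ha
  have ha0 : 0 < a := by positivity
  refine ⟨fun t => a * uu J t, ⟨?_, ?_, ?_⟩, ?_, ?_, ?_, ?_⟩
  · exact contDiff_const.mul (uu_adm J).smooth
  · intro t
    beta_reduce
    rw [(uu_adm J).even]
  · intro t ht
    beta_reduce
    rw [(uu_adm J).supp t ht, mul_zero]
  · intro t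
    exact mul_nonneg ha0.le (uu_nonneg J t)
  · beta_reduce
    rw [uu_zero, mul_zero]
  · rw [intervalIntegral.integral_const_mul, uu_int, ha]
    field_simp
  · have h1 : ∫ t in (0 : ℝ)..1, t * (a * uu J t) ^ 2 = a ^ 2 * ∫ t in (0 : ℝ)..1, t * uu J t ^ 2 := by
      rw [← intervalIntegral.integral_const_mul]
      congr 1
      funext t
      ring
    rw [h1]
    have h2 := uu_int2 J
    have h3 : a ^ 2 * ∫ t in (0 : ℝ)..1, t * uu J t ^ 2 ≤ a ^ 2 * (J * β0) := by gcongr
    have h4 : 2 * (a ^ 2 * (J * β0)) = 1 / (2 * (J * β0)) := by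
      rw [ha]; field_simp
    have h5 : 1 / (2 * (J * β0)) ≤ v0 := by
      rw [div_le_iff₀ (by positivity)]
      rw [div_lt_iff₀ (by positivity)] at hJ2
      nlinarith [mul_pos hv (mul_pos hJ0 hβ)]
    linarith

end Pool.Agent.X101.NR
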