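import Pool.Agent.X101.NR.Good

/-! Counting the bad indices, and the final theorem. -/

set_option autoImplicit false

open Filter Set MeasureTheory

namespace Pool.Agent.X101.NR

open SG (ord NZ)
open LG.CU (del)
open Pool.Agent.Y747 (Bx mem_Bx)
open Pool.Agent.TH873.EW (XV)

lemma markov (S : Finset ℕ) (G : ℕ → ℝ) (hG : ∀ n ∈ S, 0 ≤ G n) {t : ℝ} (ht : 0 < t) :
    ((S.filter (fun n => t < G n)).card : ℝ) ≤ (∑ n ∈ S, G n) / t := by
  rw [le_div_iff₀ ht]
  calc ((S.filter (fun n => t < G n)).card : ℝ) * t = ∑ n ∈ S.filter (fun n => t < G n), t := by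
        rw [Finset.sum_const, nsmul_eq_mul]
    _ ≤ ∑ n ∈ S.filter (fun n => t < G n), G n :=
        Finset.sum_le_sum fun n hn => (Finset.mem_filter.1 hn).2.le
    _ ≤ ∑ n ∈ S, G n := Finset.sum_le_sum_of_subset_of_nonneg (Finset.filter_subset _ _)
        fun n hn _ => hG n hn

lemma card_close (S : Finset ℕ) (K : ℕ) (h : ∀ n ∈ S, ∀ n' ∈ S, n' < n + K) : S.card ≤ K := by
  rcases S.eq_empty_or_nonempty with h0 | h0
  · rw [h0]; simp
  · have hsub : S ⊆ Finset.Ico (S.min' h0) (S.min' h0 + K) := by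
      intro n hn
      rw [Finset.mem_Ico]
      exact ⟨S.min'_le n hn, h _ (S.min'_mem h0) n hn⟩
    have := Finset.card_le_card hsub
    rw [Nat.card_Ico] at this
    omega

lemma cnt_short {m1 : ℕ} (hld : ∀ K : ℕ, m1 ≤ K → ∀ N : ℕ, 1 ≤ N →
    ({n : ℕ | 1 ≤ n ∧ n ≤ N ∧ yd (n + K) - yd n < K / 2}.ncard : ℝ) ≤ N / (K : ℝ) ^ 2)
    {K N : ℕ} (hK : m1 ≤ K) (hN : 1 ≤ N) (B : Finset ℕ) (hB : ∀ n ∈ B, 1 ≤ n ∧ n ≤ N) :
    ((B.filter (fun n => yd (n + K) - yd n < K / 2)).card : ℝ) ≤ N / (K : ℝ) ^ 2 ∧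
    ((B.filter (fun n => K < n ∧ yd n - yd (n - K) < K / 2)).card : ℝ) ≤ N / (K : ℝ) ^ 2 := by
  classical
  have h1 := hld K hK N hN
  have hfin : {n : ℕ | 1 ≤ n ∧ n ≤ N ∧ yd (n + K) - yd n < K / 2}.Finite :=
    (Set.finite_Iic N).subset fun n hn => hn.2.1
  constructor
  · refine le_trans ?_ h1
    have hs : ((B.filter (fun n => yd (n + K) - yd n < K / 2) : Finset ℕ) : Set ℕ) ⊆
        {n : ℕ | 1 ≤ n ∧ n ≤ N ∧ yd (n + K) - yd n < K / 2} := by
      intro n hn
      rw [Finset.mem_coe, Finset.mem_filter] at hn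
      exact ⟨(hB n hn.1).1, (hB n hn.1).2, hn.2⟩
    have h2 := Set.ncard_le_ncard hs hfin
    rw [Set.ncard_coe_finset] at h2
    exact_mod_cast h2
  · refine le_trans ?_ h1
    have hinj : Set.InjOn (fun n => n - K) ((B.filter (fun n => K < n ∧ yd n - yd (n - K) < K / 2) : Finset ℕ) : Set ℕ) := by
      intro a ha b hb hab
      rw [Finset.mem_coe, Finset.mem_filter] at ha hb
      have h2 : a - K = b - K := hab
      have h3 := ha.2.1
      have h4 := hb.2.1
      omega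
    have hs : (((B.filter (fun n => K < n ∧ yd n - yd (n - K) < K / 2)).image (fun n => n - K) : Finset ℕ) : Set ℕ) ⊆
        {n : ℕ | 1 ≤ n ∧ n ≤ N ∧ yd (n + K) - yd n < K / 2} := by
      intro n hn
      rw [Finset.mem_coe, Finset.mem_image] at hn
      obtain ⟨m, hm, rfl⟩ := hn
      rw [Finset.mem_filter] at hm
      obtain ⟨hm1, hm2, hm3⟩ := hm
      have := hB m hm1
      refine ⟨by omega, by omega, ?_⟩
      rw [show m - K + K = m by omega]
      exact hm3
    have h2 := Set.ncard_le_ncard hs hfin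
    rw [Set.ncard_coe_finset, Finset.card_image_of_injOn hinj] at h2
    exact_mod_cast h2

lemma yd_tendsto : Tendsto yd atTop atTop := by
  obtain ⟨i0, hi0⟩ := (SG.ord_tendsto.eventually_ge_atTop 20).exists_forall_of_atTop
  have hpi := Real.pi_gt_three
  have hpi4 := Real.pi_lt_d2
  set a := max i0 1 with ha
  have ha1 : 1 ≤ a := le_max_right _ _
  have hdel : ∀ i, a ≤ i → (ord (i + 1) - ord i) / (2 * Real.pi) ≤ del i := by
    intro i hi
    have h1 := hi0 i ((le_max_left _ _).trans hi)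
    have hg : 0 ≤ ord (i + 1) - ord i := sub_nonneg.2 (SG.ord_mono (by omega) (by omega))
    have hd : del i = (ord (i + 1) - ord i) / (2 * Real.pi) * Real.log (ord i / (2 * Real.pi)) := rfl
    rw [hd]
    have h2 : 1 ≤ Real.log (ord i / (2 * Real.pi)) := by
      rw [Real.le_log_iff_exp_le (div_pos (by linarith) (by positivity)), le_div_iff₀ (by positivity)]
      have := Real.exp_one_lt_d9
      nlinarith
    exact le_mul_of_one_le_right (by positivity) h2
  have hlow : ∀ k, (ord (a + k) - ord a) / (2 * Real.pi) ≤ yd (a + k) - yd a := by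
    intro k
    rw [yd_add]
    have htel : ∑ i ∈ Finset.range k, (ord (a + i + 1) - ord (a + i)) = ord (a + k) - ord a := by
      have h := Finset.sum_range_sub (fun i => ord (a + i)) k
      rw [add_zero] at h
      exact h
    rw [← htel, Finset.sum_div]
    exact Finset.sum_le_sum fun i _ => hdel _ (by omega)
  have h1 : Tendsto (fun n => (ord n - ord a) / (2 * Real.pi) + yd a) atTop atTop := by
    apply tendsto_atTop_add_const_right
    apply Tendsto.atTop_div_const (by positivity)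
    exact tendsto_atTop_add_const_right _ _ SG.ord_tendsto
  refine tendsto_atTop_mono' atTop ?_ h1
  filter_upwards [eventually_ge_atTop a] with n hn
  obtain ⟨k, rfl⟩ := Nat.exists_eq_add_of_le hn
  have := hlow k
  linarith

/-- few bad indices in a block -/
theorem blk_bad (RH : RiemannHypothesis) {ℓ ε : ℝ} (hℓ : 1 ≤ ℓ) (hε : 0 < ε) (hε1 : ε ≤ 1) :
    ∃ M : ℝ, ℓ ≤ M ∧ ∃ h : ℝ → ℝ, (∀ x y, |h x - h y| ≤ ε * |x - y|) ∧ (∀ x, h (-x) = h x) ∧
      (∀ x, |h x| ≤ 1) ∧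
      (∀ x, |x| ≤ ℓ → 1 - ε ≤ h x) ∧ ∃ V0 : ℝ, 10 ≤ V0 ∧ ∀ V : ℝ, V0 ≤ V →
        ∀ S : Finset ℕ, S ⊆ Bx V → (∀ n ∈ S, ¬ Good ℓ ε M h n) → (S.card : ℝ) ≤ ε / 2 * XV V := by
  classical
  have hpi := Real.pi_pos
  obtain ⟨m1, hm1, hld⟩ := ldK RH
  obtain ⟨C0, V1, hC0, hV1, hcard⟩ := card_up
  -- `K1`
  obtain ⟨K1, hK1⟩ := exists_nat_gt (max (max (m1 : ℝ) (2 * ℓ)) (16 * C0 / ε))
  have hK1a : (m1 : ℝ) < K1 := ((le_max_left _ _).trans (le_max_left _ _)).trans_lt hK1
  have hK1b : 2 * ℓ < K1 := ((le_max_right _ _).trans (le_max_left _ _)).trans_lt hK1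
  have hK1c : 16 * C0 / ε < K1 := (le_max_right _ _).trans_lt hK1
  have hK1m : m1 ≤ K1 := by exact_mod_cast hK1a.le
  have hK1p : (1 : ℝ) < K1 := by linarith
  -- `μ`
  set D1 : ℝ := 16 * K1 * Real.pi ^ 2 * ℓ ^ 2 / ε with hD1
  have hD10 : 0 < D1 := by positivity
  set D3 : ℝ := 2 * Real.pi / ε with hD3
  have hD30 : 0 < D3 := by positivity
  set μ : ℝ := 1 / (D1 + 2 + D3) with hμd
  have hμ : 0 < μ := by positivity
  have hμ1 : μ < 1 := by
    rw [hμd, div_lt_one (by positivity)]; linarith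
  have hμD : D1 * μ ^ 2 ≤ 1 := by
    have h1 : D1 * μ ≤ 1 := by
      rw [hμd, mul_one_div, div_le_one (by positivity)]; linarith
    nlinarith
  have hμε : 2 * Real.pi * μ ≤ ε := by
    have h1 : D3 * μ ≤ 1 := by
      rw [hμd, mul_one_div, div_le_one (by positivity)]; linarith
    calc 2 * Real.pi * μ = ε * (D3 * μ) := by rw [hD3]; field_simp
      _ ≤ ε * 1 := by gcongr
      _ = ε := mul_one _
  have hc1 : 2 * K1 * (2 * Real.pi ^ 2 * (μ * ℓ) ^ 2) ≤ ε / 4 := by
    have h1 : 2 * K1 * (2 * Real.pi ^ 2 * (μ * ℓ) ^ 2) = ε / 4 * (D1 * μ ^ 2) := by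
      rw [hD1]; field_simp; ring
    rw [h1]
    exact mul_le_of_le_one_right (by positivity) hμD
  -- `f`
  obtain ⟨f, hf, h0, h1, V2, hV2, hLS⟩ := lin_small RH hμ hμ1 (η := ε ^ 2 / 64) (by positivity)
  obtain ⟨Cd, hCd, hd⟩ := ctr_decay hf
  obtain ⟨Ck, V3, hCk, hV3, hks⟩ := ks RH hμ
  -- `M`
  set D2 : ℝ := 64 * Cd * Ck / (ε ^ 2 * μ ^ 2) with hD2
  have hD20 : 0 < D2 := by positivity
  set M : ℝ := max ℓ (D2 + 1) with hM
  have hℓM : ℓ ≤ M := le_max_left _ _
  have hMD : D2 ≤ M := by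
    have : D2 + 1 ≤ M := le_max_right _ _
    linarith
  have hM1 : 1 ≤ M := hℓ.trans hℓM
  have hM2 : Cd / (1 + (μ * M) ^ 2) * Ck ≤ ε ^ 2 / 64 := by
    have h2 : D2 ≤ M ^ 2 := by nlinarith
    have h3 : 64 * Cd * Ck ≤ M ^ 2 * (ε ^ 2 * μ ^ 2) := by
      rw [hD2, div_le_iff₀ (by positivity)] at h2; exact h2
    rw [div_mul_eq_mul_div, div_le_div_iff₀ (by positivity) (by norm_num)]
    nlinarith [sq_nonneg ε]
  -- `K`
  obtain ⟨K, hK⟩ := exists_nat_gt (max (K1 : ℝ) (2 * M))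
  have hKa : (K1 : ℝ) < K := (le_max_left _ _).trans_lt hK
  have hKb : 2 * M < K := (le_max_right _ _).trans_lt hK
  have hKK : K1 ≤ K := by exact_mod_cast hKa.le
  have hKp : (1 : ℝ) < K := by linarith
  obtain ⟨V4, hV4, hmono⟩ := mono_far
  have hlim : ∀ᶠ V in atTop, 64 * K * Real.pi * μ * M / ε ≤ Real.log V ∧ 4 ≤ Real.log V ∧
      2 + 32 * K * (2 * Real.pi) / ε ≤ V :=
    (Real.tendsto_log_atTop.eventually_ge_atTop _).and
      ((Real.tendsto_log_atTop.eventually_ge_atTop _).and (eventually_ge_atTop _))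
  obtain ⟨V5, hV5⟩ := hlim.exists_forall_of_atTop
  refine ⟨M, hℓM, fun x => ctr f (μ * x), ?_, ?_, ?_, ?_, max (max (max V1 V2) (max V3 V4)) V5,
    hV1.trans (((le_max_left _ _).trans (le_max_left _ _)).trans (le_max_left _ _)), ?_⟩
  · intro x y
    calc |ctr f (μ * x) - ctr f (μ * y)| ≤ 2 * Real.pi * |μ * x - μ * y| := ctr_lip hf h0 h1 _ _
      _ = 2 * Real.pi * μ * |x - y| := by
        rw [← mul_sub, abs_mul, abs_of_pos hμ]; ring
      _ ≤ ε * |x - y| := by gcongr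
  · intro x
    show ctr f (μ * -x) = ctr f (μ * x)
    rw [mul_neg, ctr_even]
  · intro x
    exact ctr_le_one hf h0 h1 _
  · intro x hx
    have h2 := ctr_near hf h0 h1 (μ * x)
    have h3 : (μ * x) ^ 2 ≤ (μ * ℓ) ^ 2 := by
      rw [mul_pow, mul_pow, ← sq_abs x]
      gcongr
    have h4 : 2 * Real.pi ^ 2 * (μ * x) ^ 2 ≤ 2 * Real.pi ^ 2 * (μ * ℓ) ^ 2 := by gcongr
    have h5 : 2 * Real.pi ^ 2 * (μ * ℓ) ^ 2 ≤ ε := by
      have h6 : 0 ≤ 2 * Real.pi ^ 2 * (μ * ℓ) ^ 2 := by positivity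
      nlinarith
    show 1 - ε ≤ ctr f (μ * x)
    linarith
  intro V hV S hSB hSbad
  have hVV1 : V1 ≤ V := (((le_max_left _ _).trans (le_max_left _ _)).trans (le_max_left _ _)).trans hV
  have hVV2 : V2 ≤ V := (((le_max_right _ _).trans (le_max_left _ _)).trans (le_max_left _ _)).trans hV
  have hVV3 : V3 ≤ V := (((le_max_left _ _).trans (le_max_right _ _)).trans (le_max_left _ _)).trans hV
  have hVV4 : V4 ≤ V := (((le_max_right _ _).trans (le_max_right _ _)).trans (le_max_left _ _)).trans hV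
  have hVV5 : V5 ≤ V := (le_max_right _ _).trans hV
  have hV10 : 10 ≤ V := hV1.trans hVV1
  obtain ⟨hN1, hNX, hB⟩ := hcard V hVV1
  obtain ⟨l1, l2, l3⟩ := hV5 V hVV5
  have hX := XV_pos hV10
  set N := NZ (2 * V) with hNd
  set B := Bx V with hBd
  set X := XV V with hXd
  have hL0 : 0 < Real.log V := by linarith
  have hc : 2 * K * (2 * Real.pi * (4 * μ * M / Real.log V)) ≤ ε / 4 := by
    have e1 : 2 * K * (2 * Real.pi * (4 * μ * M / Real.log V)) =
        16 * K * Real.pi * μ * M / Real.log V := by ring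
    rw [e1, div_le_iff₀ hL0]
    rw [div_le_iff₀ hε] at l1
    linarith
  have hKX : 2 * (K : ℝ) ≤ ε / 16 * X := by
    have h2 : (V - 2) / (2 * Real.pi) ≤ X := by
      rw [hXd]
      unfold Pool.Agent.TH873.EW.XV
      apply div_le_div_of_nonneg_right _ (by positivity)
      exact le_mul_of_one_le_right (by linarith) (by linarith)
    have h3 : 32 * K / ε ≤ (V - 2) / (2 * Real.pi) := by
      rw [le_div_iff₀ (by positivity)]
      have : 32 * K / ε * (2 * Real.pi) = 32 * K * (2 * Real.pi) / ε := by ring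
      linarith
    have h4 : 32 * K / ε ≤ X := h3.trans h2
    rw [div_le_iff₀ hε] at h4
    linarith
  -- the tail sum
  set tl : ℕ → ℝ := fun n => ∑ m ∈ B.filter (fun m => M < |yd m - yd n|),
    |ctr f (wV μ V m - wV μ V n)| with htl
  have htl0 : ∀ n, 0 ≤ tl n := fun n => Finset.sum_nonneg fun m _ => abs_nonneg _
  have htls : ∑ n ∈ B, tl n ≤ ε ^ 2 / 64 * X := by
    have h2 : ∀ n ∈ B, tl n ≤ ∑ m ∈ B, Cd / (1 + (μ * M) ^ 2) *
        (1 / (1 + (μ * Real.log V / (2 * Real.pi) * (ord n - ord m)) ^ 2)) := by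
      intro n hn
      calc tl n ≤ ∑ m ∈ B.filter (fun m => M < |yd m - yd n|), Cd / (1 + (μ * M) ^ 2) *
            (1 / (1 + (μ * Real.log V / (2 * Real.pi) * (ord n - ord m)) ^ 2)) := by
            refine Finset.sum_le_sum fun m hm => ?_
            rw [Finset.mem_filter] at hm
            have h3 := far_w hV10 hμ hn hm.1 hm.2
            rw [← wV_sub]
            set w := wV μ V m - wV μ V n with hw
            have h4 : wV μ V n - wV μ V m = -w := by rw [hw]; ring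
            rw [h4, neg_sq]
            refine (hd w).trans ?_
            have h5 : (μ * M) ^ 2 ≤ w ^ 2 := by
              rw [← sq_abs w]
              have : 0 ≤ μ * M := by positivity
              gcongr
            rw [div_mul_div_comm, mul_one]
            apply div_le_div_of_nonneg_left hCd.le (by positivity)
            rw [sq (1 + w ^ 2)]
            gcongr
        _ ≤ _ := by
            apply Finset.sum_le_sum_of_subset_of_nonneg (Finset.filter_subset _ _)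
            intro m _ _
            positivity
    refine (Finset.sum_le_sum h2).trans ?_
    simp_rw [← Finset.mul_sum]
    calc _ ≤ Cd / (1 + (μ * M) ^ 2) * (Ck * X) := by
          apply mul_le_mul_of_nonneg_left (hks V hVV3) (by positivity)
      _ = Cd / (1 + (μ * M) ^ 2) * Ck * X := by ring
      _ ≤ _ := by gcongr
  -- the bad sets
  set S1 := B.filter (fun n => yd (n + K1) - yd n < K1 / 2) with hS1
  set S2 := B.filter (fun n => K1 < n ∧ yd n - yd (n - K1) < K1 / 2) with hS2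
  set S3 := B.filter (fun n => yd (n + K) - yd n < K / 2) with hS3
  set S4 := B.filter (fun n => K < n ∧ yd n - yd (n - K) < K / 2) with hS4
  set S5 := B.filter (fun n => n + K ∉ B) with hS5
  set S6 := B.filter (fun n => ¬ (K < n ∧ n - K ∈ B)) with hS6
  set S7 := B.filter (fun n => ε / 4 < |LS f B (wV μ V) (wV μ V n)|) with hS7
  set S8 := B.filter (fun n => ε / 4 < tl n) with hS8
  have hsub : S ⊆ S1 ∪ S2 ∪ S3 ∪ S4 ∪ S5 ∪ S6 ∪ S7 ∪ S8 := by
    intro n hnS
    have hn := hSB hnS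
    by_contra hcon
    simp only [Finset.mem_union, not_or] at hcon
    obtain ⟨⟨⟨⟨⟨⟨⟨c1, c2⟩, c3⟩, c4⟩, c5⟩, c6⟩, c7⟩, c8⟩ := hcon
    have c6' : K < n ∧ n - K ∈ B := by
      by_contra hh
      exact c6 (Finset.mem_filter.2 ⟨hn, hh⟩)
    simp only [hS1, hS2, hS3, hS4, hS5, hS7, hS8, Finset.mem_filter, hn, true_and, not_not,
      not_lt, not_and] at c1 c2 c3 c4 c5 c7 c8
    apply hSbad n hnS
    refine good_of (K := K) (K1 := K1) hf h0 h1 hV10 l2 hμ hℓM (by linarith) (hmono V hVV4) hn c5 c6'.1 c6'.2 hKK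
      ?_ ?_ ?_ ?_ c7 c8 hc hc1
    · linarith
    · have := c4 c6'.1
      linarith
    · linarith
    · have := c2 (by omega)
      linarith
  obtain ⟨d1, d2⟩ := cnt_short hld hK1m hN1 B hB
  obtain ⟨d3, d4⟩ := cnt_short hld (hK1m.trans hKK) hN1 B hB
  have hNK1 : (N : ℝ) / (K1 : ℝ) ^ 2 ≤ ε / 16 * X := by
    rw [div_le_iff₀ (by positivity)]
    rw [div_lt_iff₀ hε] at hK1c
    have h2 : C0 * X ≤ ε / 16 * X * K1 ^ 2 := by
      have h3 : C0 ≤ ε / 16 * K1 := by linarith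
      have h4 : ε / 16 * (K1 : ℝ) ≤ ε / 16 * (K1 : ℝ) ^ 2 := by
        gcongr
        nlinarith
      nlinarith
    linarith
  have hNK : (N : ℝ) / (K : ℝ) ^ 2 ≤ ε / 16 * X := by
    refine le_trans ?_ hNK1
    gcongr
  have d5 : (S5.card : ℝ) ≤ K := by
    have : S5.card ≤ K := by
      apply card_close
      intro n hn n' hn'
      rw [Finset.mem_filter] at hn hn'
      by_contra hcc
      rw [not_lt] at hcc
      exact hn.2 (Bx_conv hn.1 hn'.1 (by omega) hcc)
    exact_mod_cast this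
  have d6 : (S6.card : ℝ) ≤ K := by
    have : S6.card ≤ K := by
      apply card_close
      intro n hn n' hn'
      rw [Finset.mem_filter] at hn hn'
      by_contra hcc
      rw [not_lt] at hcc
      apply hn'.2
      have := (mem_Bx.1 hn.1).1
      exact ⟨by omega, Bx_conv hn.1 hn'.1 (by omega) (by omega)⟩
    exact_mod_cast this
  have d7 : (S7.card : ℝ) ≤ ε / 16 * X := by
    refine (markov B (fun n => |LS f B (wV μ V) (wV μ V n)|) (fun n _ => abs_nonneg _)
      (by positivity : 0 < ε / 4)).trans ?_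
    rw [div_le_iff₀ (by positivity)]
    refine (hLS V hVV2).trans (le_of_eq ?_)
    ring
  have d8 : (S8.card : ℝ) ≤ ε / 16 * X := by
    refine (markov B tl (fun n _ => htl0 n) (by positivity : 0 < ε / 4)).trans ?_
    rw [div_le_iff₀ (by positivity)]
    refine htls.trans (le_of_eq ?_)
    ring
  have hcS : (S.card : ℝ) ≤ S1.card + S2.card + S3.card + S4.card + S5.card + S6.card + S7.card +
      S8.card := by
    have h2 := Finset.card_le_card hsub
    have u1 := Finset.card_union_le (S1 ∪ S2 ∪ S3 ∪ S4 ∪ S5 ∪ S6 ∪ S7) S8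
    have u2 := Finset.card_union_le (S1 ∪ S2 ∪ S3 ∪ S4 ∪ S5 ∪ S6) S7
    have u3 := Finset.card_union_le (S1 ∪ S2 ∪ S3 ∪ S4 ∪ S5) S6
    have u4 := Finset.card_union_le (S1 ∪ S2 ∪ S3 ∪ S4) S5
    have u5 := Finset.card_union_le (S1 ∪ S2 ∪ S3) S4
    have u6 := Finset.card_union_le (S1 ∪ S2) S3
    have u7 := Finset.card_union_le S1 S2
    exact_mod_cast (by omega : S.card ≤ S1.card + S2.card + S3.card + S4.card + S5.card + S6.card +
      S7.card + S8.card)
  have e1 : (S1.card : ℝ) ≤ ε / 16 * X := d1.trans hNK1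
  have e2 : (S2.card : ℝ) ≤ ε / 16 * X := d2.trans hNK1
  have e3 : (S3.card : ℝ) ≤ ε / 16 * X := d3.trans hNK
  have e4 : (S4.card : ℝ) ≤ ε / 16 * X := d4.trans hNK
  have : 0 ≤ ε * X := by positivity
  linarith

/-- the theorem, for `ℓ ≥ 1` and `ε ≤ 1` -/
theorem core (RH : RiemannHypothesis) {ℓ ε : ℝ} (hℓ : 1 ≤ ℓ) (hε : 0 < ε) (hε1 : ε ≤ 1) :
    ∃ M : ℝ, ℓ ≤ M ∧ ∃ h : ℝ → ℝ, (∀ x y, |h x - h y| ≤ ε * |x - y|) ∧ (∀ x, h (-x) = h x) ∧
      (∀ x, |h x| ≤ 1) ∧
      (∀ x, |x| ≤ ℓ → 1 - ε ≤ h x) ∧ ∀ᶠ N : ℕ in atTop,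
        (1 - ε) * N ≤ ({n : ℕ | 1 ≤ n ∧ n ≤ N ∧ Good ℓ ε M h n}.ncard : ℝ) := by
  classical
  obtain ⟨M, hM, h, h1, h2, h3, h4, V0, hV0, hb⟩ := blk_bad RH hℓ hε hε1
  refine ⟨M, hM, h, h1, h2, h3, h4, ?_⟩
  have hav := Pool.Agent.Y747.average RH (ε / 2) 1 (fun n => if Good ℓ ε M h n then 0 else 1)
    (fun n => by split_ifs <;> norm_num) (fun n => by split_ifs <;> norm_num)
    (fun ε' hε' => ⟨V0, hV0, fun V hV => by
      have h5 := hb V hV ((Bx V).filter (fun n => ¬ Good ℓ ε M h n)) (Finset.filter_subset _ _)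
        (fun n hn => (Finset.mem_filter.1 hn).2)
      have h6 : ∑ n ∈ Bx V, (if Good ℓ ε M h n then (0 : ℝ) else 1) =
          (((Bx V).filter (fun n => ¬ Good ℓ ε M h n)).card : ℝ) := by
        rw [Finset.card_filter]
        push_cast
        refine Finset.sum_congr rfl fun n _ => ?_
        by_cases hg : Good ℓ ε M h n
        · simp [hg]
        · simp [hg]
      rw [h6]
      have h7 := XV_pos (hV0.trans hV)
      nlinarith⟩) (ε / 2) (by positivity)
  filter_upwards [hav] with N hN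
  have h5 : ∑ n ∈ Finset.Icc 1 N, (if Good ℓ ε M h n then (0 : ℝ) else 1) =
      N - ({n : ℕ | 1 ≤ n ∧ n ≤ N ∧ Good ℓ ε M h n}.ncard : ℝ) := by
    have h6 : {n : ℕ | 1 ≤ n ∧ n ≤ N ∧ Good ℓ ε M h n} =
        (((Finset.Icc 1 N).filter (fun n => Good ℓ ε M h n) : Finset ℕ) : Set ℕ) := by
      ext n
      simp only [Finset.coe_filter, Finset.mem_Icc, Set.mem_ofPred_eq]
      tauto
    rw [h6, Set.ncard_coe_finset, Finset.card_filter]
    push_cast
    have h7 : (N : ℝ) = ∑ n ∈ Finset.Icc 1 N, (1 : ℝ) := by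
      rw [Finset.sum_const, Nat.card_Icc, nsmul_eq_mul, mul_one]
      simp
    rw [h7, ← Finset.sum_sub_distrib]
    refine Finset.sum_congr rfl fun n _ => ?_
    by_cases hg : Good ℓ ε M h n
    · simp [hg]
    · simp [hg]
  rw [h5] at hN
  linarith

end Pool.Agent.X101.NR
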