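import Pool.Agent.X101.ZG.Rho

/-! Linear statistics of a finite set of points: Plancherel's formula and a Sobolev inequality. -/

set_option autoImplicit false

open Set MeasureTheory FourierTransform

namespace Pool.Agent.X101.NR

open Pool.Agent.X101.ZG (e e_norm e_add e_cont)

/-- the cosine transform -/
noncomputable def ctr (g : ℝ → ℝ) (x : ℝ) : ℝ :=
  2 * ∫ t in (0 : ℝ)..1, g t * Real.cos (2 * Real.pi * x * t)

/-- admissible functions: even, smooth, supported in `[-1, 1]` -/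
structure Adm (f : ℝ → ℝ) : Prop where
  smooth : ContDiff ℝ (⊤ : ℕ∞) f
  even : ∀ t, f (-t) = f t
  supp : ∀ t, 1 ≤ |t| → f t = 0

lemma Adm.cont {f : ℝ → ℝ} (hf : Adm f) : Continuous f := hf.smooth.continuous

lemma e_smooth (x : ℝ) : ContDiff ℝ (⊤ : ℕ∞) (fun t : ℝ => e (t * x)) := by
  unfold e
  have h1 : ContDiff ℝ (⊤ : ℕ∞) (fun t : ℝ => ((2 * Real.pi * (t * x) : ℝ) : ℂ)) :=
    Complex.ofRealCLM.contDiff.comp (contDiff_const.mul (contDiff_id.mul contDiff_const))
  exact (h1.mul contDiff_const).cexp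

/-- the exponential sum of the points -/
noncomputable def EE (I : Finset ℕ) (w : ℕ → ℝ) (t : ℝ) : ℂ := ∑ n ∈ I, e (t * w n)

lemma EE_smooth (I : Finset ℕ) (w : ℕ → ℝ) : ContDiff ℝ (⊤ : ℕ∞) (EE I w) := by
  unfold EE
  exact ContDiff.sum fun n _ => e_smooth (w n)

lemma EE_cont (I : Finset ℕ) (w : ℕ → ℝ) : Continuous (EE I w) := (EE_smooth I w).continuous

lemma int_even {g : ℝ → ℂ} (hc : Continuous g) (h1 : ∀ t, 1 ≤ |t| → g t = 0) :
    ∫ t, g t = ∫ t in (0 : ℝ)..1, (g t + g (-t)) := by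
  have e1 : ∫ t, g t = ∫ t in Set.Ioc (-1 : ℝ) 1, g t := by
    symm
    apply setIntegral_eq_integral_of_forall_compl_eq_zero
    intro t ht
    apply h1
    rw [Set.mem_Ioc, not_and_or, not_lt, not_le] at ht
    rcases ht with h | h
    · rw [abs_of_nonpos (by linarith)]; linarith
    · exact h.le.trans (le_abs_self t)
  rw [e1, ← intervalIntegral.integral_of_le (by norm_num : (-1 : ℝ) ≤ 1)]
  have hI : ∀ a b : ℝ, IntervalIntegrable g volume a b := fun a b => hc.intervalIntegrable a b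
  have h : ∫ t in (0 : ℝ)..1, (g t + g (-t)) = (∫ t in (0 : ℝ)..1, g t) + ∫ t in (0 : ℝ)..1, g (-t) :=
    intervalIntegral.integral_add (hI 0 1) ((hc.comp continuous_neg).intervalIntegrable 0 1)
  have e2 : ∫ t in (0 : ℝ)..1, g (-t) = ∫ t in (-1 : ℝ)..0, g t := by
    rw [intervalIntegral.integral_comp_neg]
    simp
  rw [← intervalIntegral.integral_add_adjacent_intervals (hI (-1) 0) (hI 0 1), h, e2]
  ring

lemma e_conj_neg (x : ℝ) : e (-x) = (starRingEnd ℂ) (e x) := by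
  unfold e
  rw [← Complex.exp_conj, map_mul, Complex.conj_ofReal, Complex.conj_I]
  congr 1
  push_cast
  ring

lemma e_add_neg (x : ℝ) : e x + e (-x) = ((2 * Real.cos (2 * Real.pi * x) : ℝ) : ℂ) := by
  rw [e_conj_neg, Complex.add_conj]
  unfold e
  rw [Complex.exp_ofReal_mul_I_re]

/-- quadratic form of the points -/
lemma quad {g : ℝ → ℝ} (hc : Continuous g) (hev : ∀ t, g (-t) = g t) (h1 : ∀ t, 1 ≤ |t| → g t = 0)
    (I : Finset ℕ) (w : ℕ → ℝ) :
    ∫ t, g t * ‖EE I w t‖ ^ 2 = ∑ n ∈ I, ∑ m ∈ I, ctr g (w n - w m) := by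
  have h2 : ∀ t : ℝ, ((‖EE I w t‖ ^ 2 : ℝ) : ℂ) = ∑ n ∈ I, ∑ m ∈ I, e (t * (w n - w m)) := by
    intro t
    push_cast
    rw [← Complex.mul_conj']
    unfold EE
    rw [map_sum, Finset.sum_mul_sum]
    refine Finset.sum_congr rfl fun n _ => Finset.sum_congr rfl fun m _ => ?_
    rw [← e_conj_neg, ← e_add]
    congr 1
    ring
  have h3 : ((∫ t, g t * ‖EE I w t‖ ^ 2 : ℝ) : ℂ) =
      ∫ t : ℝ, (g t : ℂ) * ∑ n ∈ I, ∑ m ∈ I, e (t * (w n - w m)) := by
    rw [← integral_complex_ofReal]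
    congr 1
    funext t
    rw [← h2 t]
    push_cast
    ring
  have hcE : ∀ x : ℝ, Continuous (fun t : ℝ => e (t * x)) := fun x => (e_smooth x).continuous
  have hcS : Continuous (fun t : ℝ => ∑ n ∈ I, ∑ m ∈ I, e (t * (w n - w m))) :=
    continuous_finsetSum _ fun n _ => continuous_finsetSum _ fun m _ => hcE _
  have hgc : Continuous (fun t : ℝ => (g t : ℂ)) := Complex.continuous_ofReal.comp hc
  have h3' := int_even (g := fun t => (g t : ℂ) * ∑ n ∈ I, ∑ m ∈ I, e (t * (w n - w m)))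
    (hgc.mul hcS) (fun t ht => by rw [h1 t ht]; simp)
  rw [h3'] at h3
  have h4 : ∀ t : ℝ, ((g t : ℂ) * ∑ n ∈ I, ∑ m ∈ I, e (t * (w n - w m))) +
      ((g (-t) : ℂ) * ∑ n ∈ I, ∑ m ∈ I, e (-t * (w n - w m))) =
      ((∑ n ∈ I, ∑ m ∈ I, 2 * (g t * Real.cos (2 * Real.pi * (w n - w m) * t)) : ℝ) : ℂ) := by
    intro t
    rw [hev t, ← mul_add, ← Finset.sum_add_distrib]
    simp_rw [← Finset.sum_add_distrib]
    rw [Complex.ofReal_sum, Finset.mul_sum]
    refine Finset.sum_congr rfl fun n _ => ?_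
    rw [Complex.ofReal_sum, Finset.mul_sum]
    refine Finset.sum_congr rfl fun m _ => ?_
    rw [neg_mul, e_add_neg, show 2 * Real.pi * (t * (w n - w m)) = 2 * Real.pi * (w n - w m) * t by ring]
    push_cast
    ring
  simp_rw [h4] at h3
  rw [intervalIntegral.integral_ofReal] at h3
  have h5 := Complex.ofReal_injective h3
  rw [h5, intervalIntegral.integral_finsetSum]
  · refine Finset.sum_congr rfl fun n _ => ?_
    rw [intervalIntegral.integral_finsetSum]
    · refine Finset.sum_congr rfl fun m _ => ?_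
      rw [intervalIntegral.integral_const_mul]
      rfl
    · intro m _
      apply Continuous.intervalIntegrable
      fun_prop
  · intro n _
    apply Continuous.intervalIntegrable
    fun_prop

/-- the linear statistic -/
noncomputable def LS (f : ℝ → ℝ) (I : Finset ℕ) (w : ℕ → ℝ) (s : ℝ) : ℝ := ∑ n ∈ I, ctr f (w n - s)

/-- the function whose Fourier transform is the linear statistic -/
noncomputable def HH (f : ℝ → ℝ) (I : Finset ℕ) (w : ℕ → ℝ) (t : ℝ) : ℂ := (f t : ℂ) * EE I w t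

/-- the function whose Fourier transform is the derivative -/
noncomputable def GH (f : ℝ → ℝ) (I : Finset ℕ) (w : ℕ → ℝ) (t : ℝ) : ℂ :=
  (-2 * Real.pi * Complex.I * t) • HH f I w t

lemma HH_smooth {f : ℝ → ℝ} (hf : Adm f) (I : Finset ℕ) (w : ℕ → ℝ) :
    ContDiff ℝ (⊤ : ℕ∞) (HH f I w) := by
  unfold HH
  exact (Complex.ofRealCLM.contDiff.comp hf.smooth).mul (EE_smooth I w)

lemma HH_zero {f : ℝ → ℝ} (hf : Adm f) (I : Finset ℕ) (w : ℕ → ℝ) (t : ℝ)
    (ht : t ∉ Set.Icc (-1 : ℝ) 1) : HH f I w t = 0 := by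
  unfold HH
  rw [hf.supp t, Complex.ofReal_zero, zero_mul]
  rw [Set.mem_Icc, not_and_or, not_le, not_le] at ht
  rcases ht with h | h
  · rw [abs_of_neg (by linarith)]; linarith
  · exact h.le.trans (le_abs_self t)

lemma HH_supp {f : ℝ → ℝ} (hf : Adm f) (I : Finset ℕ) (w : ℕ → ℝ) : HasCompactSupport (HH f I w) :=
  HasCompactSupport.intro (K := Set.Icc (-1 : ℝ) 1) isCompact_Icc (fun t ht => HH_zero hf I w t ht)

lemma GH_smooth {f : ℝ → ℝ} (hf : Adm f) (I : Finset ℕ) (w : ℕ → ℝ) :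
    ContDiff ℝ (⊤ : ℕ∞) (GH f I w) := by
  have h1 : ContDiff ℝ (⊤ : ℕ∞) (fun t : ℝ => -2 * (Real.pi : ℂ) * Complex.I * (t : ℂ)) :=
    contDiff_const.mul Complex.ofRealCLM.contDiff
  exact h1.mul (HH_smooth hf I w)

lemma GH_supp {f : ℝ → ℝ} (hf : Adm f) (I : Finset ℕ) (w : ℕ → ℝ) : HasCompactSupport (GH f I w) :=
  HasCompactSupport.intro (K := Set.Icc (-1 : ℝ) 1) isCompact_Icc (fun t ht => by
    unfold GH
    rw [HH_zero hf I w t ht, smul_zero])

lemma four_HH {f : ℝ → ℝ} (hf : Adm f) (I : Finset ℕ) (w : ℕ → ℝ) (s : ℝ) :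
    𝓕 (HH f I w) s = (LS f I w s : ℂ) := by
  rw [Real.fourier_real_eq_integral_exp_smul]
  have h1 : ∀ t : ℝ, Complex.exp (((-2 * Real.pi * t * s : ℝ) : ℂ) * Complex.I) • HH f I w t =
      (f t : ℂ) * ∑ n ∈ I, e (t * (w n - s)) := by
    intro t
    unfold HH EE
    rw [smul_eq_mul, ← mul_assoc, mul_comm (Complex.exp _) (f t : ℂ), mul_assoc, Finset.mul_sum]
    congr 1
    refine Finset.sum_congr rfl fun n _ => ?_
    unfold e
    rw [← Complex.exp_add]
    congr 1
    push_cast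
    ring
  simp_rw [h1]
  have hcS : Continuous (fun t : ℝ => ∑ n ∈ I, e (t * (w n - s))) :=
    continuous_finsetSum _ fun n _ => (e_smooth _).continuous
  have hfc : Continuous (fun t : ℝ => (f t : ℂ)) := Complex.continuous_ofReal.comp hf.cont
  rw [int_even (g := fun t => (f t : ℂ) * ∑ n ∈ I, e (t * (w n - s)))
    (hfc.mul hcS) (fun t ht => by rw [hf.supp t ht]; simp)]
  have h4 : ∀ t : ℝ, ((f t : ℂ) * ∑ n ∈ I, e (t * (w n - s))) +
      ((f (-t) : ℂ) * ∑ n ∈ I, e (-t * (w n - s))) =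
      ((∑ n ∈ I, 2 * (f t * Real.cos (2 * Real.pi * (w n - s) * t)) : ℝ) : ℂ) := by
    intro t
    rw [hf.even t, ← mul_add, ← Finset.sum_add_distrib, Complex.ofReal_sum, Finset.mul_sum]
    refine Finset.sum_congr rfl fun n _ => ?_
    rw [neg_mul, e_add_neg, show 2 * Real.pi * (t * (w n - s)) = 2 * Real.pi * (w n - s) * t by ring]
    push_cast
    ring
  simp_rw [h4]
  rw [intervalIntegral.integral_ofReal]
  congr 1
  rw [intervalIntegral.integral_finsetSum]
  · unfold LS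
    refine Finset.sum_congr rfl fun n _ => ?_
    rw [intervalIntegral.integral_const_mul]
    rfl
  · intro n _
    have := hf.cont
    apply Continuous.intervalIntegrable
    fun_prop

/-- the derivative of the linear statistic -/
noncomputable def DS (f : ℝ → ℝ) (I : Finset ℕ) (w : ℕ → ℝ) (s : ℝ) : ℂ := 𝓕 (GH f I w) s

lemma LS_deriv {f : ℝ → ℝ} (hf : Adm f) (I : Finset ℕ) (w : ℕ → ℝ) (s : ℝ) :
    HasDerivAt (fun s => (LS f I w s : ℂ)) (DS f I w s) s := by
  have h1 : Integrable (HH f I w) := (HH_smooth hf I w).continuous.integrable_of_hasCompactSupport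
    (HH_supp hf I w)
  have h2 : Integrable (fun t : ℝ => t • HH f I w t) := by
    have hc : Continuous (fun t : ℝ => t • HH f I w t) :=
      continuous_id.smul (HH_smooth hf I w).continuous
    exact hc.integrable_of_hasCompactSupport (HasCompactSupport.intro (K := Set.Icc (-1 : ℝ) 1)
      isCompact_Icc (fun t ht => by rw [HH_zero hf I w t ht, smul_zero]))
  have h3 := Real.hasDerivAt_fourier h1 h2 s
  have h4 : (fun s => (LS f I w s : ℂ)) = 𝓕 (HH f I w) := by
    funext s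
    exact (four_HH hf I w s).symm
  rw [h4]
  exact h3

lemma planch {F : ℝ → ℂ} (hF : ContDiff ℝ (⊤ : ℕ∞) F) (hs : HasCompactSupport F) :
    Integrable (fun s => ‖𝓕 F s‖ ^ 2) ∧ Continuous (𝓕 F) ∧ ∫ s, ‖𝓕 F s‖ ^ 2 = ∫ t, ‖F t‖ ^ 2 := by
  have h := SchwartzMap.integral_norm_sq_fourier (hs.toSchwartzMap hF)
  have h2 := (𝓕 (hs.toSchwartzMap hF)).memLp 2 volume
  refine ⟨?_, (𝓕 (hs.toSchwartzMap hF)).continuous, h⟩
  exact (memLp_two_iff_integrable_sq_norm (𝓕 (hs.toSchwartzMap hF)).continuous.aestronglyMeasurable).1 h2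

lemma LS_plan {f : ℝ → ℝ} (hf : Adm f) (I : Finset ℕ) (w : ℕ → ℝ) :
    Integrable (fun s => LS f I w s ^ 2) ∧ Continuous (LS f I w) ∧
    ∫ s, LS f I w s ^ 2 = ∑ n ∈ I, ∑ m ∈ I, ctr (fun t => f t ^ 2) (w n - w m) := by
  obtain ⟨h1, h2, h3⟩ := planch (HH_smooth hf I w) (HH_supp hf I w)
  have e1 : 𝓕 (HH f I w) = fun s => (LS f I w s : ℂ) := funext (four_HH hf I w)
  have e2 : ∀ s, ‖𝓕 (HH f I w) s‖ ^ 2 = LS f I w s ^ 2 := by
    intro s
    rw [e1, Complex.norm_real, Real.norm_eq_abs, sq_abs]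
  simp_rw [e2] at h1 h3
  refine ⟨h1, ?_, ?_⟩
  · rw [e1] at h2
    have h4 := Complex.continuous_re.comp h2
    exact h4
  · rw [h3, ← quad (g := fun t => f t ^ 2) (hf.cont.pow 2) (fun t => by rw [hf.even])
      (fun t ht => by rw [hf.supp t ht]; norm_num)]
    congr 1
    funext t
    unfold HH
    rw [norm_mul, mul_pow, Complex.norm_real, Real.norm_eq_abs, sq_abs]

lemma DS_plan {f : ℝ → ℝ} (hf : Adm f) (I : Finset ℕ) (w : ℕ → ℝ) :
    Integrable (fun s => ‖DS f I w s‖ ^ 2) ∧ Continuous (DS f I w) ∧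
    ∫ s, ‖DS f I w s‖ ^ 2 =
      ∑ n ∈ I, ∑ m ∈ I, ctr (fun t => 4 * Real.pi ^ 2 * t ^ 2 * f t ^ 2) (w n - w m) := by
  obtain ⟨h1, h2, h3⟩ := planch (GH_smooth hf I w) (GH_supp hf I w)
  refine ⟨h1, h2, ?_⟩
  unfold DS
  have hfc := hf.cont
  rw [h3, ← quad (g := fun t => 4 * Real.pi ^ 2 * t ^ 2 * f t ^ 2) (by fun_prop)
      (fun t => by rw [hf.even]; ring)
      (fun t ht => by rw [hf.supp t ht]; ring)]
  congr 1
  funext t
  unfold GH HH
  rw [smul_eq_mul, norm_mul, norm_mul, norm_mul, norm_mul, norm_mul, Complex.norm_I, Complex.norm_real,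
    Complex.norm_real, Complex.norm_real, Real.norm_eq_abs, Real.norm_eq_abs, Real.norm_eq_abs]
  have h4 : ‖(-2 : ℂ)‖ = 2 := by norm_num
  rw [h4, abs_of_pos Real.pi_pos, mul_one, mul_pow, mul_pow, mul_pow, mul_pow, sq_abs, sq_abs]
  ring

/-- number of close pairs -/
noncomputable def PC (I : Finset ℕ) (w : ℕ → ℝ) (μ : ℝ) : ℝ :=
  ∑ n ∈ I, ∑ m ∈ I, if |w n - w m| ≤ μ then (1 : ℝ) else 0

/-- the Sobolev inequality -/
theorem sob {f : ℝ → ℝ} (hf : Adm f) (I : Finset ℕ) (w : ℕ → ℝ) {μ θ : ℝ} (hμ : 0 < μ)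
    (hθ : 0 < θ) :
    ∑ n ∈ I, |LS f I w (w n)| ≤
      (1 / θ) * ((1 / μ ^ 2) * ∑ n ∈ I, ∑ m ∈ I, ctr (fun t => f t ^ 2) (w n - w m) +
        ∑ n ∈ I, ∑ m ∈ I, ctr (fun t => 4 * Real.pi ^ 2 * t ^ 2 * f t ^ 2) (w n - w m)) +
      θ / 2 * (μ * PC I w μ) := by
  classical
  obtain ⟨hi1, hc1, hp1⟩ := LS_plan hf I w
  obtain ⟨hi2, hc2, hp2⟩ := DS_plan hf I w
  set Z := LS f I w with hZ
  set D := DS f I w with hD
  set F : ℝ → ℝ := fun s => |Z s| / μ + ‖D s‖ with hF
  have hFc : Continuous F := (hc1.abs.div_const μ).add hc2.norm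
  have hF0 : ∀ s, 0 ≤ F s := fun s => by simp only [hF]; positivity
  -- one point
  have one : ∀ a : ℝ, |Z a| ≤ ∫ s in a..(a + μ), F s := by
    intro a
    have hIZ : ∀ x y : ℝ, IntervalIntegrable (fun s => |Z s|) volume x y := fun x y =>
      hc1.abs.intervalIntegrable x y
    have hID : ∀ x y : ℝ, IntervalIntegrable (fun s => ‖D s‖) volume x y := fun x y =>
      hc2.norm.intervalIntegrable x y
    have h1 : ∀ s ∈ Set.Icc a (a + μ), |Z a| - ∫ x in a..(a + μ), ‖D x‖ ≤ |Z s| := by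
      intro s hs
      have h2 : ∫ x in a..s, D x = (Z s : ℂ) - (Z a : ℂ) :=
        intervalIntegral.integral_eq_sub_of_hasDerivAt (fun x _ => LS_deriv hf I w x)
          (hc2.intervalIntegrable _ _)
      have h3 : ‖(Z s : ℂ) - (Z a : ℂ)‖ ≤ ∫ x in a..s, ‖D x‖ := by
        rw [← h2]
        exact intervalIntegral.norm_integral_le_integral_norm hs.1
      have h4 : ∫ x in a..s, ‖D x‖ ≤ ∫ x in a..(a + μ), ‖D x‖ := by
        apply intervalIntegral.integral_mono_interval le_rfl hs.1 hs.2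
        · exact Filter.Eventually.of_forall fun x => norm_nonneg _
        · exact hID _ _
      rw [← Complex.ofReal_sub, Complex.norm_real, Real.norm_eq_abs] at h3
      have h5 := abs_sub_abs_le_abs_sub (Z a) (Z s)
      rw [abs_sub_comm] at h5
      linarith
    have h2 := intervalIntegral.integral_mono_on (a := a) (b := a + μ) (μ := volume) (by linarith)
      (continuous_const.intervalIntegrable _ _) (hIZ _ _) h1
    rw [intervalIntegral.integral_const, smul_eq_mul, add_sub_cancel_left] at h2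
    have h3 : ∫ s in a..(a + μ), F s = (∫ s in a..(a + μ), |Z s|) / μ + ∫ s in a..(a + μ), ‖D s‖ := by
      simp only [hF]
      rw [intervalIntegral.integral_add ((hIZ _ _).div_const μ) (hID _ _),
        intervalIntegral.integral_div]
    rw [h3]
    have h4 : |Z a| - ∫ x in a..(a + μ), ‖D x‖ ≤ (∫ s in a..(a + μ), |Z s|) / μ := by
      rw [le_div_iff₀ hμ]
      linarith
    linarith
  -- the counting function
  set ind : ℕ → ℝ → ℝ := fun n s => (Set.Ioc (w n) (w n + μ)).indicator (fun _ => (1 : ℝ)) s with hind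
  have hindi : ∀ n, Integrable (ind n) := by
    intro n
    simp only [hind]
    have hfin : volume (Set.Ioc (w n) (w n + μ)) ≠ ⊤ := by simp
    have henorm : ‖(1 : ℝ)‖ₑ ≠ ⊤ := by simp
    rw [integrable_indicator_iff measurableSet_Ioc]
    exact integrableOn_const hfin henorm
  set ν : ℝ → ℝ := fun s => ∑ n ∈ I, ind n s with hν
  have h6 : ∀ n ∈ I, ∫ s in (w n)..(w n + μ), F s = ∫ s, F s * ind n s := by
    intro n _
    rw [intervalIntegral.integral_of_le (by linarith), ← integral_indicator measurableSet_Ioc]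
    congr 1
    funext s
    simp only [hind]
    by_cases hs : s ∈ Set.Ioc (w n) (w n + μ)
    · rw [Set.indicator_of_mem hs, Set.indicator_of_mem hs, mul_one]
    · rw [Set.indicator_of_notMem hs, Set.indicator_of_notMem hs, mul_zero]
  have hFind : ∀ n ∈ I, Integrable (fun s => F s * ind n s) := by
    intro n _
    have h7 : (fun s => F s * ind n s) = (Set.Ioc (w n) (w n + μ)).indicator F := by
      funext s
      simp only [hind]
      by_cases hs : s ∈ Set.Ioc (w n) (w n + μ)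
      · rw [Set.indicator_of_mem hs, Set.indicator_of_mem hs, mul_one]
      · rw [Set.indicator_of_notMem hs, Set.indicator_of_notMem hs, mul_zero]
    rw [h7, integrable_indicator_iff measurableSet_Ioc]
    exact (hFc.integrableOn_Icc (a := w n) (b := w n + μ)).mono_set Set.Ioc_subset_Icc_self
  have h8 : ∑ n ∈ I, |Z (w n)| ≤ ∫ s, F s * ν s := by
    have h9 : ∫ s, F s * ν s = ∑ n ∈ I, ∫ s, F s * ind n s := by
      rw [← integral_finsetSum _ hFind]
      congr 1
      funext s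
      simp only [hν]
      rw [Finset.mul_sum]
    rw [h9]
    refine Finset.sum_le_sum fun n hn => ?_
    rw [← h6 n hn]
    exact one (w n)
  have hprod : ∀ n m s, ind n s * ind m s = (Set.Ioc (w n) (w n + μ) ∩
      Set.Ioc (w m) (w m + μ)).indicator (fun _ => (1 : ℝ)) s := by
    intro n m s
    simp only [hind]
    by_cases h1 : s ∈ Set.Ioc (w n) (w n + μ)
    · by_cases h2 : s ∈ Set.Ioc (w m) (w m + μ)
      · have h3 : s ∈ Set.Ioc (w n) (w n + μ) ∩ Set.Ioc (w m) (w m + μ) := ⟨h1, h2⟩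
        rw [Set.indicator_of_mem h1, Set.indicator_of_mem h2, Set.indicator_of_mem h3, one_mul]
      · have h3 : s ∉ Set.Ioc (w n) (w n + μ) ∩ Set.Ioc (w m) (w m + μ) := fun h => h2 h.2
        rw [Set.indicator_of_notMem h2, Set.indicator_of_notMem h3, mul_zero]
    · have h3 : s ∉ Set.Ioc (w n) (w n + μ) ∩ Set.Ioc (w m) (w m + μ) := fun h => h1 h.1
      rw [Set.indicator_of_notMem h1, Set.indicator_of_notMem h3, zero_mul]
  have hprodi : ∀ n m, Integrable (fun s => ind n s * ind m s) := by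
    intro n m
    have h1 : (fun s => ind n s * ind m s) = (Set.Ioc (w n) (w n + μ) ∩
      Set.Ioc (w m) (w m + μ)).indicator (fun _ => (1 : ℝ)) := funext (hprod n m)
    have hfin : volume (Set.Ioc (w n) (w n + μ) ∩ Set.Ioc (w m) (w m + μ)) ≠ ⊤ :=
      (lt_of_le_of_lt (measure_mono Set.inter_subset_left) (by simp)).ne
    have henorm : ‖(1 : ℝ)‖ₑ ≠ ⊤ := by simp
    rw [h1, integrable_indicator_iff (measurableSet_Ioc.inter measurableSet_Ioc)]
    exact integrableOn_const hfin henorm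
  have hprodb : ∀ n m, ∫ s, ind n s * ind m s ≤ if |w n - w m| ≤ μ then μ else 0 := by
    intro n m
    split_ifs with h
    · have h1 : ∫ s, ind n s * ind m s ≤ ∫ s, ind n s := by
        apply integral_mono (hprodi n m) (hindi n)
        intro s
        simp only [hind]
        by_cases h1 : s ∈ Set.Ioc (w n) (w n + μ)
        · rw [Set.indicator_of_mem h1, one_mul]
          exact Set.indicator_le_self' (fun _ _ => zero_le_one) s
        · rw [Set.indicator_of_notMem h1, zero_mul]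
      refine h1.trans (le_of_eq ?_)
      simp only [hind]
      rw [integral_indicator measurableSet_Ioc]
      simp [hμ.le]
    · have h1 : ∀ s, ind n s * ind m s = 0 := by
        intro s
        rw [hprod, Set.indicator_of_notMem]
        rintro ⟨h2, h3⟩
        rw [Set.mem_Ioc] at h2 h3
        apply h
        rw [abs_le]
        constructor <;> linarith [h2.1, h2.2, h3.1, h3.2]
      simp only [h1, integral_zero, le_refl]
  have hν2 : ∀ s, ν s ^ 2 = ∑ n ∈ I, ∑ m ∈ I, ind n s * ind m s := by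
    intro s
    simp only [hν]
    rw [pow_two, Finset.sum_mul_sum]
  have hν2i : Integrable (fun s => ν s ^ 2) := by
    simp_rw [hν2]
    exact integrable_finsetSum _ fun n _ => integrable_finsetSum _ fun m _ => hprodi n m
  have hν2b : ∫ s, ν s ^ 2 ≤ μ * PC I w μ := by
    simp_rw [hν2]
    rw [integral_finsetSum _ (fun n _ => integrable_finsetSum _ fun m _ => hprodi n m)]
    unfold PC
    rw [Finset.mul_sum]
    refine Finset.sum_le_sum fun n _ => ?_
    rw [integral_finsetSum _ (fun m _ => hprodi n m), Finset.mul_sum]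
    refine Finset.sum_le_sum fun m _ => ?_
    refine (hprodb n m).trans (le_of_eq ?_)
    split_ifs <;> simp
  -- the final estimate
  have hpt : ∀ s, F s * ν s ≤ (1 / θ) * ((1 / μ ^ 2) * Z s ^ 2 + ‖D s‖ ^ 2) + θ / 2 * ν s ^ 2 := by
    intro s
    have h1 : F s * ν s ≤ F s ^ 2 / (2 * θ) + θ / 2 * ν s ^ 2 := by
      have h2 : 0 ≤ (F s - θ * ν s) ^ 2 / (2 * θ) := by positivity
      have h3 : (F s - θ * ν s) ^ 2 / (2 * θ) = F s ^ 2 / (2 * θ) - F s * ν s + θ / 2 * ν s ^ 2 := by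
        field_simp
        ring
      linarith
    have h2 : F s ^ 2 ≤ 2 * ((1 / μ ^ 2) * Z s ^ 2 + ‖D s‖ ^ 2) := by
      have h3 : (|Z s| / μ) ^ 2 = (1 / μ ^ 2) * Z s ^ 2 := by
        rw [div_pow, sq_abs]; ring
      rw [← h3]
      simp only [hF]
      nlinarith [sq_nonneg (|Z s| / μ - ‖D s‖)]
    have h3 : F s ^ 2 / (2 * θ) ≤ (1 / θ) * ((1 / μ ^ 2) * Z s ^ 2 + ‖D s‖ ^ 2) := by
      rw [div_le_iff₀ (by positivity)]
      have h4 : (1 / θ) * ((1 / μ ^ 2) * Z s ^ 2 + ‖D s‖ ^ 2) * (2 * θ) =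
          2 * ((1 / μ ^ 2) * Z s ^ 2 + ‖D s‖ ^ 2) := by
        field_simp
      rw [h4]
      exact h2
    linarith
  have hb1 : Integrable (fun s => (1 / μ ^ 2) * Z s ^ 2) := hi1.const_mul _
  have hb2 : Integrable (fun s => (1 / μ ^ 2) * Z s ^ 2 + ‖D s‖ ^ 2) := hb1.add hi2
  have hb3 : Integrable (fun s => (1 / θ) * ((1 / μ ^ 2) * Z s ^ 2 + ‖D s‖ ^ 2)) := hb2.const_mul _
  have hb4 : Integrable (fun s => θ / 2 * ν s ^ 2) := hν2i.const_mul _
  have hFν : Integrable (fun s => F s * ν s) := by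
    have h1 : (fun s => F s * ν s) = fun s => ∑ n ∈ I, F s * ind n s := by
      funext s
      simp only [hν]
      rw [Finset.mul_sum]
    rw [h1]
    exact integrable_finsetSum _ hFind
  have hfin := integral_mono hFν (hb3.add hb4) hpt
  have hsplit : ∫ s, ((1 / θ) * ((1 / μ ^ 2) * Z s ^ 2 + ‖D s‖ ^ 2) + θ / 2 * ν s ^ 2) =
      (1 / θ) * ((1 / μ ^ 2) * ∫ s, Z s ^ 2) + (1 / θ) * (∫ s, ‖D s‖ ^ 2) +
        θ / 2 * ∫ s, ν s ^ 2 := by
    rw [integral_add hb3 hb4, integral_const_mul, integral_add hb1 hi2, integral_const_mul,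
      integral_const_mul]
    ring
  have hfin' : ∫ s, F s * ν s ≤ (1 / θ) * ((1 / μ ^ 2) * ∫ s, Z s ^ 2) +
      (1 / θ) * (∫ s, ‖D s‖ ^ 2) + θ / 2 * ∫ s, ν s ^ 2 := by
    rw [← hsplit]; exact hfin
  rw [hp1, hp2] at hfin'
  have h10 : θ / 2 * ∫ s, ν s ^ 2 ≤ θ / 2 * (μ * PC I w μ) :=
    mul_le_mul_of_nonneg_left hν2b (by positivity)
  calc ∑ n ∈ I, |Z (w n)| ≤ _ := h8.trans hfin'
    _ ≤ _ := by
      rw [mul_add (1 / θ)]
      linarith

end Pool.Agent.X101.NR
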