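import Pool.Agent.X101.NR.Pair

/-! Properties of the kernel, and the criterion for a good index. -/

set_option autoImplicit false

open Filter Set MeasureTheory

namespace Pool.Agent.X101.NR

open SG (ord NZ)
open LG.CU (del)
open Pool.Agent.Y747 (Bx mem_Bx)
open Pool.Agent.TH873.EW (XV)

lemma ctr_zero {f : ℝ → ℝ} (h1 : 2 * ∫ t in (0 : ℝ)..1, f t = 1) : ctr f 0 = 1 := by
  unfold ctr
  rw [← h1]
  congr 2
  funext t
  simp

lemma abs_cos_sub (a b : ℝ) : |Real.cos a - Real.cos b| ≤ |a - b| := by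
  have h := Real.abs_cos_sub_cos_le a b
  exact h

lemma ctr_lip {f : ℝ → ℝ} (hf : Adm f) (h0 : ∀ t, 0 ≤ f t) (h1 : 2 * ∫ t in (0 : ℝ)..1, f t = 1)
    (x y : ℝ) : |ctr f x - ctr f y| ≤ 2 * Real.pi * |x - y| := by
  have hc := hf.cont
  have i1 : ∀ x : ℝ, IntervalIntegrable (fun t => f t * Real.cos (2 * Real.pi * x * t)) volume 0 1 := by
    intro x
    apply Continuous.intervalIntegrable
    fun_prop
  have e1 : ctr f x - ctr f y = 2 * ∫ t in (0 : ℝ)..1, (f t * Real.cos (2 * Real.pi * x * t) -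
      f t * Real.cos (2 * Real.pi * y * t)) := by
    rw [intervalIntegral.integral_sub (i1 x) (i1 y)]
    unfold ctr
    ring
  rw [e1, abs_mul, abs_of_pos (by norm_num : (0 : ℝ) < 2)]
  have h2 : |∫ t in (0 : ℝ)..1, (f t * Real.cos (2 * Real.pi * x * t) -
      f t * Real.cos (2 * Real.pi * y * t))| ≤ ∫ t in (0 : ℝ)..1, 2 * Real.pi * |x - y| * f t := by
    rw [← Real.norm_eq_abs]
    refine (intervalIntegral.norm_integral_le_integral_norm zero_le_one).trans ?_
    apply intervalIntegral.integral_mono_on zero_le_one ((i1 x).sub (i1 y)).norm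
    · apply Continuous.intervalIntegrable
      fun_prop
    · intro t ht
      rw [Real.norm_eq_abs, ← mul_sub, abs_mul, abs_of_nonneg (h0 t), mul_comm]
      apply mul_le_mul_of_nonneg_right _ (h0 t)
      refine (Real.abs_cos_sub_cos_le _ _).trans ?_
      rw [show 2 * Real.pi * x * t - 2 * Real.pi * y * t = 2 * Real.pi * (x - y) * t by ring,
        abs_mul, abs_mul, abs_of_nonneg ht.1, abs_of_pos (by positivity)]
      exact mul_le_of_le_one_right (by positivity) ht.2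
  rw [intervalIntegral.integral_const_mul] at h2
  calc 2 * _ ≤ 2 * (2 * Real.pi * |x - y| * ∫ t in (0 : ℝ)..1, f t) := by gcongr
    _ = 2 * Real.pi * |x - y| * (2 * ∫ t in (0 : ℝ)..1, f t) := by ring
    _ = _ := by rw [h1, mul_one]

lemma ctr_le_one {f : ℝ → ℝ} (hf : Adm f) (h0 : ∀ t, 0 ≤ f t) (h1 : 2 * ∫ t in (0 : ℝ)..1, f t = 1)
    (x : ℝ) : |ctr f x| ≤ 1 := by
  have hc := hf.cont
  unfold ctr
  rw [abs_mul, abs_of_pos (by norm_num : (0 : ℝ) < 2)]
  have h2 : |∫ t in (0 : ℝ)..1, f t * Real.cos (2 * Real.pi * x * t)| ≤ ∫ t in (0 : ℝ)..1, f t := by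
    rw [← Real.norm_eq_abs]
    refine (intervalIntegral.norm_integral_le_integral_norm zero_le_one).trans ?_
    apply intervalIntegral.integral_mono_on zero_le_one
    · apply Continuous.intervalIntegrable
      fun_prop
    · exact hc.intervalIntegrable _ _
    · intro t ht
      rw [Real.norm_eq_abs, abs_mul, abs_of_nonneg (h0 t)]
      exact mul_le_of_le_one_right (h0 t) (Real.abs_cos_le_one _)
  calc _ ≤ 2 * ∫ t in (0 : ℝ)..1, f t := by gcongr
    _ = 1 := h1

lemma ctr_near {f : ℝ → ℝ} (hf : Adm f) (h0 : ∀ t, 0 ≤ f t) (h1 : 2 * ∫ t in (0 : ℝ)..1, f t = 1)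
    (x : ℝ) : 1 - 2 * Real.pi ^ 2 * x ^ 2 ≤ ctr f x := by
  have hc := hf.cont
  unfold ctr
  have h2 : ∫ t in (0 : ℝ)..1, (1 - 2 * Real.pi ^ 2 * x ^ 2) * f t ≤
      ∫ t in (0 : ℝ)..1, f t * Real.cos (2 * Real.pi * x * t) := by
    apply intervalIntegral.integral_mono_on zero_le_one
    · apply Continuous.intervalIntegrable
      fun_prop
    · apply Continuous.intervalIntegrable
      fun_prop
    · intro t ht
      rw [mul_comm]
      apply mul_le_mul_of_nonneg_left _ (h0 t)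
      have h3 := Real.one_sub_sq_div_two_le_cos (x := 2 * Real.pi * x * t)
      have h4 : (2 * Real.pi * x * t) ^ 2 / 2 ≤ 2 * Real.pi ^ 2 * x ^ 2 := by
        have h5 : t ^ 2 ≤ 1 := by nlinarith [ht.1, ht.2]
        have h6 : 0 ≤ 2 * Real.pi ^ 2 * x ^ 2 := by positivity
        calc (2 * Real.pi * x * t) ^ 2 / 2 = 2 * Real.pi ^ 2 * x ^ 2 * t ^ 2 := by ring
          _ ≤ _ := mul_le_of_le_one_right h6 h5
      linarith
  rw [intervalIntegral.integral_const_mul] at h2
  calc 1 - 2 * Real.pi ^ 2 * x ^ 2 = (1 - 2 * Real.pi ^ 2 * x ^ 2) * (2 * ∫ t in (0 : ℝ)..1, f t) := by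
        rw [h1, mul_one]
    _ = 2 * ((1 - 2 * Real.pi ^ 2 * x ^ 2) * ∫ t in (0 : ℝ)..1, f t) := by ring
    _ ≤ _ := by gcongr

/-- convexity of the block -/
lemma Bx_conv {V : ℝ} {n m k : ℕ} (hn : n ∈ Bx V) (hk : k ∈ Bx V) (h1 : n ≤ m) (h2 : m ≤ k) :
    m ∈ Bx V := by
  rw [mem_Bx] at *
  have h3 := SG.ord_mono hn.1 h1
  have h4 := SG.ord_mono (by omega : 1 ≤ m) h2
  exact ⟨by omega, by linarith [hn.2.1], by linarith [hk.2.2]⟩

/-- monotonicity of `yd` near high blocks -/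
lemma mono_far : ∃ V0 : ℝ, 10 ≤ V0 ∧ ∀ V : ℝ, V0 ≤ V → ∀ n ∈ Bx V,
    (∀ m, m ≤ n → yd m ≤ yd n) ∧ (∀ m, n ≤ m → yd n ≤ yd m) := by
  obtain ⟨i0, hi0⟩ := (SG.ord_tendsto.eventually_ge_atTop 20).exists_forall_of_atTop
  have hpi := Real.pi_gt_three
  have hpi4 := Real.pi_lt_d2
  set a := max i0 1 with ha
  have ha1 : 1 ≤ a := le_max_right _ _
  have hord : ∀ i, a ≤ i → 20 ≤ ord i := fun i hi => hi0 i ((le_max_left _ _).trans hi)
  have hdel : ∀ i, a ≤ i → (ord (i + 1) - ord i) / (2 * Real.pi) ≤ del i := by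
    intro i hi
    have h1 := hord i hi
    have hg : 0 ≤ ord (i + 1) - ord i := sub_nonneg.2 (SG.ord_mono (by omega) (by omega))
    have hd : del i = (ord (i + 1) - ord i) / (2 * Real.pi) * Real.log (ord i / (2 * Real.pi)) := rfl
    rw [hd]
    have h2 : 1 ≤ Real.log (ord i / (2 * Real.pi)) := by
      rw [Real.le_log_iff_exp_le (div_pos (by linarith) (by positivity)), le_div_iff₀ (by positivity)]
      have := Real.exp_one_lt_d9
      nlinarith
    exact le_mul_of_one_le_right (by positivity) h2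
  have hg : ∀ i, a ≤ i → 0 ≤ ord (i + 1) - ord i := fun i hi =>
    sub_nonneg.2 (SG.ord_mono (by omega) (by omega))
  have hdel0 : ∀ i, a ≤ i → 0 ≤ del i := fun i hi =>
    (div_nonneg (hg i hi) (by positivity)).trans (hdel i hi)
  have hmono : ∀ n m, a ≤ n → n ≤ m → yd n ≤ yd m := by
    intro n m hn hm
    obtain ⟨k, rfl⟩ := Nat.exists_eq_add_of_le hm
    have h1 : 0 ≤ yd (n + k) - yd n := by
      rw [yd_add]
      exact Finset.sum_nonneg fun i _ => hdel0 _ (by omega)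
    linarith
  have hlow : ∀ k, (ord (a + k) - ord a) / (2 * Real.pi) ≤ yd (a + k) - yd a := by
    intro k
    rw [yd_add]
    have htel : ∑ i ∈ Finset.range k, (ord (a + i + 1) - ord (a + i)) = ord (a + k) - ord a := by
      have h := Finset.sum_range_sub (fun i => ord (a + i)) k
      rw [add_zero] at h
      exact h
    rw [← htel, Finset.sum_div]
    exact Finset.sum_le_sum fun i _ => hdel _ (by omega)
  obtain ⟨Y, hY⟩ : ∃ Y : ℝ, ∀ i, i ≤ a → yd i ≤ Y := by
    obtain ⟨Y, hY⟩ := ((Finset.range (a + 1)).image yd).bddAbove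
    refine ⟨Y, fun i hi => hY ?_⟩
    rw [Finset.mem_coe, Finset.mem_image]
    exact ⟨i, Finset.mem_range.2 (by omega), rfl⟩
  refine ⟨max 10 (max (ord a) (ord a + 2 * Real.pi * (Y - yd a))), le_max_left _ _, fun V hV n hn => ?_⟩
  have hV2 : ord a ≤ V := ((le_max_left _ _).trans (le_max_right _ _)).trans hV
  have hV3 : ord a + 2 * Real.pi * (Y - yd a) ≤ V := ((le_max_right _ _).trans (le_max_right _ _)).trans hV
  rw [mem_Bx] at hn
  have han : a ≤ n := by
    by_contra h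
    have := SG.ord_mono hn.1 (by omega : n ≤ a)
    linarith [hn.2.1]
  refine ⟨fun m hm => ?_, fun m hm => hmono n m han hm⟩
  by_cases h : a ≤ m
  · exact hmono m n h hm
  · have h1 := hY m (by omega)
    obtain ⟨k, rfl⟩ := Nat.exists_eq_add_of_le han
    have h2 := hlow k
    have h3 : Y - yd a ≤ (ord (a + k) - ord a) / (2 * Real.pi) := by
      rw [le_div_iff₀ (by positivity)]
      linarith [hn.2.1]
    linarith

/-- comparison of the two scales -/
lemma conv_w {V μ M : ℝ} (hV : 10 ≤ V) (hL : 4 ≤ Real.log V) (hμ : 0 < μ) {n m : ℕ} (hn : n ∈ Bx V)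
    (hm : m ∈ Bx V) (h : |yd m - yd n| ≤ M) :
    |(wV μ V m - wV μ V n) - μ * (yd m - yd n)| ≤ 4 * μ * M / Real.log V := by
  have key : ∀ n k : ℕ, n ∈ Bx V → n + k ∈ Bx V → |yd (n + k) - yd n| ≤ M →
      |(wV μ V (n + k) - wV μ V n) - μ * (yd (n + k) - yd n)| ≤ 4 * μ * M / Real.log V := by
    intro n k hn hk h
    obtain ⟨c1, c2, c3⟩ := blk_cmp hV hn hk
    set Y := yd (n + k) - yd n with hY
    set D := Real.log V / (2 * Real.pi) * (ord (n + k) - ord n) with hD
    have e1 : wV μ V (n + k) - wV μ V n = μ * D := by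
      rw [wV_sub, hD]; ring
    rw [e1, ← mul_sub, abs_mul, abs_of_pos hμ, abs_of_nonneg (by linarith)]
    have hL0 : 0 < Real.log V := by linarith
    have h1 : (1 - 2 / Real.log V) * D ≤ Y := c2
    have h2 : 2 / Real.log V ≤ 1 / 2 := by
      rw [div_le_div_iff₀ hL0 (by norm_num)]; linarith
    have hD0 : 0 ≤ D := by linarith
    have h3 : D ≤ 2 * Y := by nlinarith
    have h4 : D - Y ≤ 2 / Real.log V * D := by linarith
    have h5 : Y ≤ M := (le_abs_self _).trans h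
    have h6 : 2 / Real.log V * D ≤ 2 / Real.log V * (2 * M) := by
      apply mul_le_mul_of_nonneg_left _ (by positivity)
      linarith
    calc μ * (D - Y) ≤ μ * (2 / Real.log V * (2 * M)) := by gcongr; linarith
      _ = _ := by ring
  rcases le_total n m with h1 | h1
  · obtain ⟨k, rfl⟩ := Nat.exists_eq_add_of_le h1
    exact key n k hn hm h
  · obtain ⟨k, rfl⟩ := Nat.exists_eq_add_of_le h1
    have h2 := key m k hm hn (by rw [abs_sub_comm]; exact h)
    rw [← abs_neg] at h2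
    convert h2 using 2
    ring

lemma far_w {V μ M : ℝ} (hV : 10 ≤ V) (hμ : 0 < μ) {n m : ℕ} (hn : n ∈ Bx V)
    (hm : m ∈ Bx V) (h : M < |yd m - yd n|) :
    μ * M ≤ |wV μ V m - wV μ V n| := by
  have key : ∀ n k : ℕ, n ∈ Bx V → n + k ∈ Bx V → M < |yd (n + k) - yd n| →
      μ * M ≤ |wV μ V (n + k) - wV μ V n| := by
    intro n k hn hk h
    obtain ⟨c1, c2, c3⟩ := blk_cmp hV hn hk
    rw [abs_of_nonneg c3] at h
    have e1 : wV μ V (n + k) - wV μ V n =
        μ * (Real.log V / (2 * Real.pi) * (ord (n + k) - ord n)) := by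
      rw [wV_sub]; ring
    rw [e1]
    refine le_trans ?_ (le_abs_self _)
    gcongr
    linarith
  rcases le_total n m with h1 | h1
  · obtain ⟨k, rfl⟩ := Nat.exists_eq_add_of_le h1
    exact key n k hn hm h
  · obtain ⟨k, rfl⟩ := Nat.exists_eq_add_of_le h1
    rw [abs_sub_comm]
    exact key m k hm hn (by rw [abs_sub_comm]; exact h)

/-- the predicted identity at the index `n` -/
def Good (ℓ ε M : ℝ) (h : ℝ → ℝ) (n : ℕ) : Prop := ∀ J : Set ℝ, J ⊆ Icc (-ℓ) ℓ →
  |({m : ℕ | 1 ≤ m ∧ yd m - yd n ∈ J}.ncard : ℝ) +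
    ∑ᶠ m ∈ {m : ℕ | 1 ≤ m ∧ |yd m - yd n| ≤ M ∧ yd m - yd n ∉ J}, h (yd m - yd n)| ≤ ε

/-- a criterion for a good index -/
lemma good_of {V ℓ ε M μ : ℝ} {f : ℝ → ℝ} {K K1 n : ℕ} (hf : Adm f) (h0 : ∀ t, 0 ≤ f t)
    (h1 : 2 * ∫ t in (0 : ℝ)..1, f t = 1) (hV : 10 ≤ V) (hL : 4 ≤ Real.log V) (hμ : 0 < μ)
    (hℓM : ℓ ≤ M) (hℓ : 0 < ℓ)
    (hmono : ∀ n ∈ Bx V, (∀ m, m ≤ n → yd m ≤ yd n) ∧ (∀ m, n ≤ m → yd n ≤ yd m))
    (hn : n ∈ Bx V) (hK : n + K ∈ Bx V) (hKn : K < n) (hK' : n - K ∈ Bx V) (hKK : K1 ≤ K)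
    (hu : M < yd (n + K) - yd n) (hd : M < yd n - yd (n - K))
    (hu1 : ℓ < yd (n + K1) - yd n) (hd1 : ℓ < yd n - yd (n - K1))
    (hLS : |LS f (Bx V) (wV μ V) (wV μ V n)| ≤ ε / 4)
    (htail : ∑ m ∈ (Bx V).filter (fun m => M < |yd m - yd n|), |ctr f (wV μ V m - wV μ V n)| ≤ ε / 4)
    (hc : 2 * K * (2 * Real.pi * (4 * μ * M / Real.log V)) ≤ ε / 4)
    (hc1 : 2 * K1 * (2 * Real.pi ^ 2 * (μ * ℓ) ^ 2) ≤ ε / 4) :
    Good ℓ ε M (fun x => ctr f (μ * x)) n := by
  classical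
  intro J hJ
  set B := Bx V with hB
  set h : ℝ → ℝ := fun x => ctr f (μ * x) with hh
  set W := B.filter (fun m => |yd m - yd n| ≤ M) with hW
  have hn1 : 1 ≤ n := (mem_Bx.1 hn).1
  -- the window is in the block
  have hwin : ∀ m, |yd m - yd n| ≤ M → m ∈ B ∧ n - K < m ∧ m < n + K := by
    intro m hm
    rw [abs_le] at hm
    have a1 : m < n + K := by
      by_contra hc
      rw [not_lt] at hc
      have := (hmono (n + K) hK).2 m hc
      linarith [hm.2]
    have a2 : n - K < m := by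
      by_contra hc
      rw [not_lt] at hc
      have := (hmono (n - K) hK').1 m hc
      linarith [hm.1]
    exact ⟨Bx_conv hK' hK a2.le a1.le, a2, a1⟩
  have hsmall : ∀ m, |yd m - yd n| ≤ ℓ → n - K1 < m ∧ m < n + K1 := by
    intro m hm
    have hBK1 : n + K1 ∈ B := Bx_conv hn hK (by omega) (by omega)
    have hBK1' : n - K1 ∈ B := Bx_conv hK' hn (by omega) (by omega)
    rw [abs_le] at hm
    have a1 : m < n + K1 := by
      by_contra hc
      rw [not_lt] at hc
      have := (hmono (n + K1) hBK1).2 m hc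
      linarith [hm.2]
    have a2 : n - K1 < m := by
      by_contra hc
      rw [not_lt] at hc
      have := (hmono (n - K1) hBK1').1 m hc
      linarith [hm.1]
    exact ⟨a2, a1⟩
  have hJM : ∀ x ∈ J, |x| ≤ ℓ := fun x hx => abs_le.2 (hJ hx)
  -- the two sets
  have s1 : {m : ℕ | 1 ≤ m ∧ yd m - yd n ∈ J} = ↑(W.filter (fun m => yd m - yd n ∈ J)) := by
    ext m
    simp only [Set.mem_ofPred_eq, Finset.coe_filter, hW, Finset.mem_filter]
    constructor
    · rintro ⟨_, b2⟩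
      have b3 := (hJM _ b2).trans hℓM
      exact ⟨⟨(hwin m b3).1, b3⟩, b2⟩
    · rintro ⟨⟨b1, _⟩, b2⟩
      exact ⟨(mem_Bx.1 b1).1, b2⟩
  have s2 : {m : ℕ | 1 ≤ m ∧ |yd m - yd n| ≤ M ∧ yd m - yd n ∉ J} =
      ↑(W.filter (fun m => yd m - yd n ∉ J)) := by
    ext m
    simp only [Set.mem_ofPred_eq, Finset.coe_filter, hW, Finset.mem_filter]
    constructor
    · rintro ⟨_, b2, b3⟩
      exact ⟨⟨(hwin m b2).1, b2⟩, b3⟩
    · rintro ⟨⟨b1, b2⟩, b3⟩
      exact ⟨(mem_Bx.1 b1).1, b2, b3⟩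
  rw [s1, s2, Set.ncard_coe_finset, finsum_mem_coe_finset]
  have e1 : ((W.filter (fun m => yd m - yd n ∈ J)).card : ℝ) =
      ∑ m ∈ W.filter (fun m => yd m - yd n ∈ J), (1 - h (yd m - yd n)) +
      ∑ m ∈ W.filter (fun m => yd m - yd n ∈ J), h (yd m - yd n) := by
    rw [← Finset.sum_add_distrib]
    simp
  rw [e1, add_assoc, Finset.sum_filter_add_sum_filter_not]
  -- first part
  have p1 : |∑ m ∈ W.filter (fun m => yd m - yd n ∈ J), (1 - h (yd m - yd n))| ≤ ε / 4 := by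
    have hcard : ((W.filter (fun m => yd m - yd n ∈ J)).card : ℝ) ≤ 2 * K1 := by
      have hsub : W.filter (fun m => yd m - yd n ∈ J) ⊆ Finset.Ioo (n - K1) (n + K1) := by
        intro m hm
        rw [Finset.mem_filter] at hm
        rw [Finset.mem_Ioo]
        exact hsmall m (hJM _ hm.2)
      have h2 := Finset.card_le_card hsub
      rw [Nat.card_Ioo] at h2
      exact_mod_cast (by omega : (W.filter (fun m => yd m - yd n ∈ J)).card ≤ 2 * K1)
    refine (Finset.abs_sum_le_sum_abs _ _).trans ?_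
    calc ∑ m ∈ W.filter (fun m => yd m - yd n ∈ J), |1 - h (yd m - yd n)| ≤
        ∑ m ∈ W.filter (fun m => yd m - yd n ∈ J), 2 * Real.pi ^ 2 * (μ * ℓ) ^ 2 := by
          refine Finset.sum_le_sum fun m hm => ?_
          rw [Finset.mem_filter] at hm
          have b1 := hJM _ hm.2
          have b2 := ctr_near hf h0 h1 (μ * (yd m - yd n))
          have b3 := (abs_le.1 (ctr_le_one hf h0 h1 (μ * (yd m - yd n)))).2
          have b4 : (μ * (yd m - yd n)) ^ 2 ≤ (μ * ℓ) ^ 2 := by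
            rw [mul_pow, mul_pow, ← sq_abs (yd m - yd n)]
            gcongr
          simp only [hh]
          rw [abs_of_nonneg (by linarith)]
          have b5 : 2 * Real.pi ^ 2 * (μ * (yd m - yd n)) ^ 2 ≤ 2 * Real.pi ^ 2 * (μ * ℓ) ^ 2 := by
            gcongr
          linarith
      _ = ((W.filter (fun m => yd m - yd n ∈ J)).card : ℝ) * (2 * Real.pi ^ 2 * (μ * ℓ) ^ 2) := by
          rw [Finset.sum_const, nsmul_eq_mul]
      _ ≤ 2 * K1 * (2 * Real.pi ^ 2 * (μ * ℓ) ^ 2) := by gcongr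
      _ ≤ _ := hc1
  -- second part
  have p2 : |∑ m ∈ W, (h (yd m - yd n) - ctr f (wV μ V m - wV μ V n))| ≤ ε / 4 := by
    have hcard : (W.card : ℝ) ≤ 2 * K := by
      have hsub : W ⊆ Finset.Ioo (n - K) (n + K) := by
        intro m hm
        rw [Finset.mem_filter] at hm
        rw [Finset.mem_Ioo]
        exact (hwin m hm.2).2
      have h2 := Finset.card_le_card hsub
      rw [Nat.card_Ioo] at h2
      exact_mod_cast (by omega : W.card ≤ 2 * K)
    refine (Finset.abs_sum_le_sum_abs _ _).trans ?_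
    have hM0 : 0 ≤ M := hℓ.le.trans hℓM
    have hL0 : 0 < Real.log V := by linarith
    calc ∑ m ∈ W, |h (yd m - yd n) - ctr f (wV μ V m - wV μ V n)| ≤
        ∑ m ∈ W, 2 * Real.pi * (4 * μ * M / Real.log V) := by
          refine Finset.sum_le_sum fun m hm => ?_
          rw [Finset.mem_filter] at hm
          simp only [hh]
          refine (ctr_lip hf h0 h1 _ _).trans ?_
          rw [abs_sub_comm]
          have := conv_w hV hL hμ hn hm.1 hm.2
          gcongr
      _ = (W.card : ℝ) * (2 * Real.pi * (4 * μ * M / Real.log V)) := by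
          rw [Finset.sum_const, nsmul_eq_mul]
      _ ≤ 2 * K * (2 * Real.pi * (4 * μ * M / Real.log V)) := by
          have : 0 ≤ 2 * Real.pi * (4 * μ * M / Real.log V) := by positivity
          gcongr
      _ ≤ _ := hc
  -- third part
  have p3 : |∑ m ∈ W, ctr f (wV μ V m - wV μ V n)| ≤ ε / 4 + ε / 4 := by
    have e2 := Finset.sum_filter_add_sum_filter_not B (fun m => |yd m - yd n| ≤ M)
      (fun m => ctr f (wV μ V m - wV μ V n))
    have e3 : B.filter (fun m => ¬ |yd m - yd n| ≤ M) = B.filter (fun m => M < |yd m - yd n|) := by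
      apply Finset.filter_congr
      intro m _
      rw [not_le]
    rw [e3] at e2
    have e4 : ∑ m ∈ W, ctr f (wV μ V m - wV μ V n) = LS f B (wV μ V) (wV μ V n) -
        ∑ m ∈ B.filter (fun m => M < |yd m - yd n|), ctr f (wV μ V m - wV μ V n) := by
      unfold LS
      rw [← e2]
      ring
    rw [e4]
    refine (abs_sub _ _).trans ?_
    have := (Finset.abs_sum_le_sum_abs (fun m => ctr f (wV μ V m - wV μ V n))
      (B.filter (fun m => M < |yd m - yd n|))).trans htail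
    linarith
  have e5 : ∑ m ∈ W, h (yd m - yd n) = ∑ m ∈ W, (h (yd m - yd n) - ctr f (wV μ V m - wV μ V n)) +
      ∑ m ∈ W, ctr f (wV μ V m - wV μ V n) := by
    rw [← Finset.sum_add_distrib]
    refine Finset.sum_congr rfl fun m _ => ?_
    ring
  rw [e5]
  have q1 := abs_add_le (∑ m ∈ W.filter (fun m => yd m - yd n ∈ J), (1 - h (yd m - yd n)))
    (∑ m ∈ W, (h (yd m - yd n) - ctr f (wV μ V m - wV μ V n)) + ∑ m ∈ W, ctr f (wV μ V m - wV μ V n))
  have q2 := abs_add_le (∑ m ∈ W, (h (yd m - yd n) - ctr f (wV μ V m - wV μ V n)))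
    (∑ m ∈ W, ctr f (wV μ V m - wV μ V n))
  linarith

end Pool.Agent.X101.NR
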