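import Pool.Agent.Y747.Glob
import Pool.Agent.TH800.LD.Asm3

/-! Sums over pairs of ordinates of a dyadic block. -/

set_option autoImplicit false

open Filter Set

namespace Pool.Agent.X101.NR

open SG (ord NZ)
open LG.CU (del)
open Pool.Agent.Y747 (Bx mem_Bx)
open Pool.Agent.TH873.EW (XV)

lemma RHs_of (RH : RiemannHypothesis) : SP.RHs := by
  intro s h1 h2 h0
  apply RH s h0
  · rintro ⟨k, hk⟩
    have := congrArg Complex.re hk
    simp at this
    have hk0 : (0 : ℝ) ≤ k := Nat.cast_nonneg k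
    linarith
  · intro h; rw [h] at h2; simp at h2

/-- the unfolded ordinates -/
noncomputable def yd (n : ℕ) : ℝ := ∑ i ∈ Finset.range n, del i

lemma yd_add (n k : ℕ) : yd (n + k) - yd n = ∑ i ∈ Finset.range k, del (n + i) := by
  unfold yd
  rw [Finset.sum_range_add]
  ring

lemma sq_sum (N : ℕ) : ∑ k ∈ Finset.Icc 1 N, 1 / (k : ℝ) ^ 2 ≤ 2 := by
  have h : ∀ N : ℕ, 1 ≤ N → ∑ k ∈ Finset.Icc 1 N, 1 / (k : ℝ) ^ 2 ≤ 2 - 1 / (N : ℝ) := by
    intro N hN
    induction N, hN using Nat.le_induction with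
    | base => norm_num
    | succ N hN ih =>
      rw [Finset.sum_Icc_succ_top (by omega)]
      have hN0 : (0 : ℝ) < N := by exact_mod_cast hN
      have h1 : 1 / ((N + 1 : ℕ) : ℝ) ^ 2 ≤ 1 / (N : ℝ) - 1 / ((N + 1 : ℕ) : ℝ) := by
        push_cast
        rw [div_sub_div _ _ hN0.ne' (by positivity), div_le_div_iff₀ (by positivity) (by positivity)]
        nlinarith
      linarith
  rcases Nat.eq_zero_or_pos N with h0 | h0
  · subst h0; norm_num
  · have h1 := h N h0
    have h2 : (0 : ℝ) < 1 / (N : ℝ) := by positivity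
    linarith

/-- short blocks are rare -/
lemma ldK (RH : RiemannHypothesis) : ∃ m1 : ℕ, 1 ≤ m1 ∧ ∀ K : ℕ, m1 ≤ K → ∀ N : ℕ, 1 ≤ N →
    ({n : ℕ | 1 ≤ n ∧ n ≤ N ∧ yd (n + K) - yd n < K / 2}.ncard : ℝ) ≤ N / (K : ℝ) ^ 2 := by
  obtain ⟨c, hc, m0, hm0, h⟩ := Pool.Agent.TH800.LD.main (RHs_of RH) (1 / 2) (by norm_num) (by norm_num)
  refine ⟨max m0 ⌈2 / c⌉₊, hm0.trans (le_max_left _ _), fun K hK N hN => ?_⟩
  have hK0 : m0 ≤ K := (le_max_left _ _).trans hK
  have hK1 : 2 / c ≤ K := (Nat.le_ceil _).trans (by exact_mod_cast (le_max_right _ _).trans hK)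
  have hK2 : 2 ≤ c * K := by
    rw [div_le_iff₀ hc] at hK1; linarith
  have hKp : (1 : ℝ) ≤ K := by exact_mod_cast hm0.trans hK0
  have hKpos : (0 : ℝ) < K := by linarith
  have h1 := h N hN K hK0
  have h2 : Real.exp (-c * (K * Real.log K)) ≤ 1 / (K : ℝ) ^ 2 := by
    have h3 : Real.exp (-(2 * Real.log K)) = 1 / (K : ℝ) ^ 2 := by
      rw [Real.exp_neg, two_mul, Real.exp_add, Real.exp_log hKpos]
      field_simp
    rw [← h3]
    apply Real.exp_le_exp.2
    have h4 : 0 ≤ Real.log K := Real.log_nonneg hKp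
    nlinarith
  have hsub : {n : ℕ | 1 ≤ n ∧ n ≤ N ∧ yd (n + K) - yd n < K / 2} ⊆
      {n : ℕ | 1 ≤ n ∧ n ≤ N ∧ 1 / 2 * (K : ℝ) ≤ |∑ i ∈ Finset.range K, del (n + i) - K|} := by
    rintro n ⟨a1, a2, a3⟩
    refine ⟨a1, a2, ?_⟩
    rw [yd_add] at a3
    rw [abs_of_neg (by linarith)]
    linarith
  have h5 : ({n : ℕ | 1 ≤ n ∧ n ≤ N ∧ yd (n + K) - yd n < K / 2}.ncard : ℝ) ≤
      ({n : ℕ | 1 ≤ n ∧ n ≤ N ∧ 1 / 2 * (K : ℝ) ≤ |∑ i ∈ Finset.range K, del (n + i) - K|}.ncard : ℝ) := by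
    exact_mod_cast Set.ncard_le_ncard hsub ((Set.finite_Iic N).subset fun n hn => hn.2.1)
  calc _ ≤ _ := h5
    _ ≤ _ := h1
    _ ≤ N * (1 / (K : ℝ) ^ 2) := by gcongr
    _ = _ := by ring

/-- comparison of the gaps in a block -/
lemma gap_cmp {V : ℝ} (hV : 10 ≤ V) {i : ℕ} (h0 : 1 ≤ i) (h1 : V + 1 < ord i) (h2 : ord i ≤ 2 * V - 1) :
    del i ≤ Real.log V / (2 * Real.pi) * (ord (i + 1) - ord i) ∧
    (1 - 2 / Real.log V) * (Real.log V / (2 * Real.pi) * (ord (i + 1) - ord i)) ≤ del i ∧ 0 ≤ del i := by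
  have hpi := Real.pi_gt_three
  have hpi4 := Real.pi_lt_d2
  have hg : 0 ≤ ord (i + 1) - ord i := sub_nonneg.2 (SG.ord_mono h0 (by omega))
  have hlV : 0 < Real.log V := Real.log_pos (by linarith)
  have hoi : 0 < ord i := by linarith
  have hup : Real.log (ord i / (2 * Real.pi)) ≤ Real.log V := by
    apply Real.log_le_log (div_pos hoi (by positivity))
    rw [div_le_iff₀ (by positivity)]
    nlinarith
  have hlo : Real.log V - 2 ≤ Real.log (ord i / (2 * Real.pi)) := by
    rw [Real.log_div (by linarith) (by positivity)]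
    have h3 : Real.log V ≤ Real.log (ord i) := Real.log_le_log (by linarith) (by linarith)
    have h4 : Real.log (2 * Real.pi) ≤ 2 := by
      rw [Real.log_le_iff_le_exp (by positivity)]
      have h5 : Real.exp 2 = Real.exp 1 * Real.exp 1 := by rw [← Real.exp_add]; norm_num
      rw [h5]
      have := Real.exp_one_gt_d9
      nlinarith
    linarith
  have hnn : 0 ≤ Real.log (ord i / (2 * Real.pi)) := by
    apply Real.log_nonneg
    rw [le_div_iff₀ (by positivity)]
    linarith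
  have hd : del i = (ord (i + 1) - ord i) / (2 * Real.pi) * Real.log (ord i / (2 * Real.pi)) := rfl
  have hg2 : 0 ≤ (ord (i + 1) - ord i) / (2 * Real.pi) := by positivity
  refine ⟨?_, ?_, ?_⟩
  · rw [hd]
    calc _ ≤ (ord (i + 1) - ord i) / (2 * Real.pi) * Real.log V := by gcongr
      _ = _ := by ring
  · rw [hd]
    calc (1 - 2 / Real.log V) * (Real.log V / (2 * Real.pi) * (ord (i + 1) - ord i))
        = (ord (i + 1) - ord i) / (2 * Real.pi) * (Real.log V - 2) := by
          field_simp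
      _ ≤ _ := by gcongr
  · rw [hd]; positivity

/-- comparison of the unfolded ordinates in a block -/
lemma blk_cmp {V : ℝ} (hV : 10 ≤ V) {n k : ℕ} (hn : n ∈ Bx V) (hk : n + k ∈ Bx V) :
    yd (n + k) - yd n ≤ Real.log V / (2 * Real.pi) * (ord (n + k) - ord n) ∧
    (1 - 2 / Real.log V) * (Real.log V / (2 * Real.pi) * (ord (n + k) - ord n)) ≤
      yd (n + k) - yd n ∧ 0 ≤ yd (n + k) - yd n := by
  rw [mem_Bx] at hn hk
  have htel : ∑ i ∈ Finset.range k, (ord (n + i + 1) - ord (n + i)) = ord (n + k) - ord n := by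
    have h := Finset.sum_range_sub (fun i => ord (n + i)) k
    rw [add_zero] at h
    exact h
  have hc : ∀ i ∈ Finset.range k, V + 1 < ord (n + i) ∧ ord (n + i) ≤ 2 * V - 1 := by
    intro i hi
    rw [Finset.mem_range] at hi
    have h1 := SG.ord_mono hn.1 (by omega : n ≤ n + i)
    have h2 := SG.ord_mono (by omega : 1 ≤ n + i) (by omega : n + i ≤ n + k)
    exact ⟨by linarith [hn.2.1], by linarith [hk.2.2]⟩
  rw [yd_add, ← htel]
  refine ⟨?_, ?_, ?_⟩
  · rw [Finset.mul_sum]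
    exact Finset.sum_le_sum fun i hi => (gap_cmp hV (by omega) (hc i hi).1 (hc i hi).2).1
  · rw [Finset.mul_sum, Finset.mul_sum]
    exact Finset.sum_le_sum fun i hi => (gap_cmp hV (by omega) (hc i hi).1 (hc i hi).2).2.1
  · exact Finset.sum_nonneg fun i hi => (gap_cmp hV (by omega) (hc i hi).1 (hc i hi).2).2.2

/-- the indices of the block are `≪ XV` -/
lemma card_up : ∃ C V0 : ℝ, 0 < C ∧ 10 ≤ V0 ∧ ∀ V : ℝ, V0 ≤ V → 1 ≤ NZ (2 * V) ∧
    (NZ (2 * V) : ℝ) ≤ C * XV V ∧ ∀ n ∈ Bx V, 1 ≤ n ∧ n ≤ NZ (2 * V) := by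
  obtain ⟨C, T1, hC, hT1, h⟩ := LG.GapAux.NZ_up
  have hpi := Real.pi_gt_three
  have hpi4 := Real.pi_lt_d2
  obtain ⟨T2, hT2⟩ := (SG.ord_tendsto.eventually_ge_atTop 0).exists_forall_of_atTop
  refine ⟨C * 8 * 2, max (max 10 T1) (ord 1), by positivity, (le_max_left _ _).trans (le_max_left _ _),
    fun V hV => ?_⟩
  have hV10 : 10 ≤ V := ((le_max_left _ _).trans (le_max_left _ _)).trans hV
  have hVT : T1 ≤ V := ((le_max_right _ _).trans (le_max_left _ _)).trans hV
  have hV1 : ord 1 ≤ V := (le_max_right _ _).trans hV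
  have hlV : 0 < Real.log V := Real.log_pos (by linarith)
  refine ⟨?_, ?_, ?_⟩
  · rw [← SG.ord_le_iff le_rfl]
    linarith
  · have h1 := h V hVT
    refine h1.trans ?_
    unfold Pool.Agent.TH873.EW.XV
    rw [mul_div_assoc', le_div_iff₀ (by positivity)]
    have h2 : V * Real.log V * (2 * Real.pi) ≤ 16 * ((V - 2) * Real.log V) := by
      have h3 : V * (2 * Real.pi) ≤ 16 * (V - 2) := by nlinarith
      nlinarith
    nlinarith
  · intro n hn
    rw [mem_Bx] at hn
    refine ⟨hn.1, (SG.le_NZ_ord hn.1).trans (SG.NZ_mono (by linarith [hn.2.2]))⟩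

/-- splitting a symmetric double sum -/
lemma double_le (B : Finset ℕ) (N : ℕ) (hB : ∀ n ∈ B, 1 ≤ n ∧ n ≤ N) (F : ℕ → ℕ → ℝ)
    (hs : ∀ n m, F n m = F m n) :
    ∑ n ∈ B, ∑ m ∈ B, F n m = ∑ n ∈ B, F n n +
      2 * ∑ k ∈ Finset.Icc 1 N, ∑ n ∈ B.filter (fun n => n + k ∈ B), F n (n + k) := by
  classical
  have h1 : ∀ n ∈ B, ∑ m ∈ B, F n m = F n n + ∑ m ∈ B.filter (fun m => n < m), F n m +
      ∑ m ∈ B.filter (fun m => m < n), F n m := by
    intro n hn
    rw [← Finset.sum_filter_add_sum_filter_not B (fun m => n < m)]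
    have h2 : ∑ m ∈ B.filter (fun m => ¬ n < m), F n m = F n n + ∑ m ∈ B.filter (fun m => m < n), F n m := by
      rw [← Finset.sum_filter_add_sum_filter_not (B.filter (fun m => ¬ n < m)) (fun m => m = n)]
      congr 1
      · rw [Finset.filter_filter]
        have h3 : B.filter (fun m => ¬ n < m ∧ m = n) = {n} := by
          ext m
          simp only [Finset.mem_filter, Finset.mem_singleton]
          constructor
          · rintro ⟨_, _, h⟩; exact h
          · rintro rfl; exact ⟨hn, lt_irrefl _, rfl⟩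
        rw [h3, Finset.sum_singleton]
      · rw [Finset.filter_filter]
        congr 1
        ext m
        simp only [Finset.mem_filter]
        constructor
        · rintro ⟨h, h1, h2⟩; exact ⟨h, by omega⟩
        · rintro ⟨h, h1⟩; exact ⟨h, by omega, by omega⟩
    rw [h2]; ring
  rw [Finset.sum_congr rfl h1, Finset.sum_add_distrib, Finset.sum_add_distrib]
  have h2 : ∑ n ∈ B, ∑ m ∈ B.filter (fun m => m < n), F n m =
      ∑ n ∈ B, ∑ m ∈ B.filter (fun m => n < m), F n m := by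
    simp_rw [Finset.sum_filter]
    rw [Finset.sum_comm]
    refine Finset.sum_congr rfl fun n _ => Finset.sum_congr rfl fun m _ => ?_
    rw [hs]
  have h3 : ∑ n ∈ B, ∑ m ∈ B.filter (fun m => n < m), F n m =
      ∑ k ∈ Finset.Icc 1 N, ∑ n ∈ B.filter (fun n => n + k ∈ B), F n (n + k) := by
    have h4 : ∀ n ∈ B, ∑ m ∈ B.filter (fun m => n < m), F n m =
        ∑ k ∈ (Finset.Icc 1 N).filter (fun k => n + k ∈ B), F n (n + k) := by
      intro n hn
      refine Finset.sum_bij' (fun m _ => m - n) (fun k _ => n + k) ?_ ?_ ?_ ?_ ?_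
      · intro m hm
        rw [Finset.mem_filter] at hm
        rw [Finset.mem_filter, Finset.mem_Icc]
        have h5 := hB m hm.1
        refine ⟨⟨by omega, by omega⟩, ?_⟩
        rw [show n + (m - n) = m by omega]
        exact hm.1
      · intro k hk
        rw [Finset.mem_filter, Finset.mem_Icc] at hk
        rw [Finset.mem_filter]
        exact ⟨hk.2, by omega⟩
      · intro m hm
        rw [Finset.mem_filter] at hm
        show n + (m - n) = m
        omega
      · intro k _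
        show n + k - n = k
        omega
      · intro m hm
        rw [Finset.mem_filter] at hm
        show F n m = F n (n + (m - n))
        rw [show n + (m - n) = m by omega]
    rw [Finset.sum_congr rfl h4]
    simp_rw [Finset.sum_filter]
    rw [Finset.sum_comm]
  rw [h2, h3]
  ring

/-- **kernel sum**: the sum of `1 / (1 + w²)` over the pairs of ordinates of a block -/
theorem ks (RH : RiemannHypothesis) {μ : ℝ} (hμ : 0 < μ) : ∃ C V0 : ℝ, 0 < C ∧ 10 ≤ V0 ∧
    ∀ V : ℝ, V0 ≤ V → ∑ n ∈ Bx V, ∑ m ∈ Bx V,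
      1 / (1 + (μ * Real.log V / (2 * Real.pi) * (ord n - ord m)) ^ 2) ≤ C * XV V := by
  classical
  obtain ⟨m1, hm1, hld⟩ := ldK RH
  obtain ⟨C0, V0, hC0, hV0, hcard⟩ := card_up
  refine ⟨C0 * (1 + 2 * (m1 + (4 / μ ^ 2 + 1) * 2)), V0, by positivity, hV0, fun V hV => ?_⟩
  have hV10 : 10 ≤ V := hV0.trans hV
  obtain ⟨hN1, hNX, hB⟩ := hcard V hV
  set N := NZ (2 * V) with hN
  set B := Bx V with hBd
  have hN0 : (0 : ℝ) < N := by exact_mod_cast hN1
  set F : ℕ → ℕ → ℝ := fun n m =>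
    1 / (1 + (μ * Real.log V / (2 * Real.pi) * (ord n - ord m)) ^ 2) with hF
  have hF1 : ∀ n m, F n m ≤ 1 := by
    intro n m
    simp only [hF]
    rw [div_le_one (by positivity)]
    have : 0 ≤ (μ * Real.log V / (2 * Real.pi) * (ord n - ord m)) ^ 2 := sq_nonneg _
    linarith
  have hF0 : ∀ n m, 0 ≤ F n m := fun n m => by simp only [hF]; positivity
  have hFs : ∀ n m, F n m = F m n := by
    intro n m
    simp only [hF]
    congr 2
    ring
  have hBsub : B ⊆ Finset.Icc 1 N := fun n hn => Finset.mem_Icc.2 (hB n hn)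
  have hBc : (B.card : ℝ) ≤ N := by
    have := Finset.card_le_card hBsub
    rw [Nat.card_Icc] at this
    exact_mod_cast (by omega : B.card ≤ N)
  rw [double_le B N hB F hFs]
  have hdiag : ∑ n ∈ B, F n n ≤ N := by
    calc ∑ n ∈ B, F n n ≤ ∑ n ∈ B, (1 : ℝ) := Finset.sum_le_sum fun n _ => hF1 n n
      _ = B.card := by rw [Finset.sum_const, nsmul_eq_mul, mul_one]
      _ ≤ N := hBc
  have hk : ∀ k ∈ Finset.Icc 1 N, ∑ n ∈ B.filter (fun n => n + k ∈ B), F n (n + k) ≤
      N * ((if k < m1 then (1 : ℝ) else 0) + (4 / μ ^ 2 + 1) * (1 / (k : ℝ) ^ 2)) := by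
    intro k hk
    rw [Finset.mem_Icc] at hk
    have hk0 : (0 : ℝ) < k := by exact_mod_cast hk.1
    by_cases hkm : k < m1
    · rw [if_pos hkm]
      have h1 : ∑ n ∈ B.filter (fun n => n + k ∈ B), F n (n + k) ≤ N := by
        calc _ ≤ ∑ n ∈ B, F n (n + k) :=
              Finset.sum_le_sum_of_subset_of_nonneg (Finset.filter_subset _ _) fun _ _ _ => hF0 _ _
          _ ≤ ∑ n ∈ B, (1 : ℝ) := Finset.sum_le_sum fun n _ => hF1 _ _
          _ = B.card := by rw [Finset.sum_const, nsmul_eq_mul, mul_one]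
          _ ≤ N := hBc
      have h2 : 0 ≤ (N : ℝ) * ((4 / μ ^ 2 + 1) * (1 / (k : ℝ) ^ 2)) := by positivity
      linarith
    · rw [if_neg hkm, zero_add]
      have hld1 := hld k (by omega) N hN1
      have hpt : ∀ n ∈ B.filter (fun n => n + k ∈ B), F n (n + k) ≤
          4 / (μ ^ 2 * (k : ℝ) ^ 2) + (if yd (n + k) - yd n < k / 2 then (1 : ℝ) else 0) := by
        intro n hn
        rw [Finset.mem_filter] at hn
        split_ifs with h
        · have := hF1 n (n + k)
          have : 0 ≤ 4 / (μ ^ 2 * (k : ℝ) ^ 2) := by positivity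
          linarith
        · rw [add_zero]
          rw [not_lt] at h
          obtain ⟨c1, _, _⟩ := blk_cmp hV10 hn.1 hn.2
          have c2 : (k : ℝ) / 2 ≤ Real.log V / (2 * Real.pi) * (ord (n + k) - ord n) := h.trans c1
          have c3 : (μ * (k / 2)) ^ 2 ≤ (μ * Real.log V / (2 * Real.pi) * (ord n - ord (n + k))) ^ 2 := by
            have e1 : (μ * Real.log V / (2 * Real.pi) * (ord n - ord (n + k))) ^ 2 =
                (μ * (Real.log V / (2 * Real.pi) * (ord (n + k) - ord n))) ^ 2 := by ring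
            rw [e1]
            gcongr
          simp only [hF]
          rw [div_le_div_iff₀ (by positivity) (by positivity)]
          have c4 : (μ * (k / 2)) ^ 2 = μ ^ 2 * (k : ℝ) ^ 2 / 4 := by ring
          rw [c4] at c3
          linarith
      calc ∑ n ∈ B.filter (fun n => n + k ∈ B), F n (n + k)
          ≤ ∑ n ∈ B.filter (fun n => n + k ∈ B), (4 / (μ ^ 2 * (k : ℝ) ^ 2) +
            (if yd (n + k) - yd n < k / 2 then (1 : ℝ) else 0)) := Finset.sum_le_sum hpt
        _ ≤ ∑ n ∈ Finset.Icc 1 N, (4 / (μ ^ 2 * (k : ℝ) ^ 2) +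
            (if yd (n + k) - yd n < k / 2 then (1 : ℝ) else 0)) := by
            apply Finset.sum_le_sum_of_subset_of_nonneg ((Finset.filter_subset _ _).trans hBsub)
            intro n _ _
            have : 0 ≤ 4 / (μ ^ 2 * (k : ℝ) ^ 2) := by positivity
            split_ifs <;> linarith
        _ = N * (4 / (μ ^ 2 * (k : ℝ) ^ 2)) +
            (((Finset.Icc 1 N).filter (fun n => yd (n + k) - yd n < k / 2)).card : ℝ) := by
            rw [Finset.sum_add_distrib, Finset.sum_const, Nat.card_Icc, nsmul_eq_mul,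
              ← Finset.sum_filter, Finset.sum_const, nsmul_eq_mul, mul_one]
            simp
        _ ≤ N * (4 / (μ ^ 2 * (k : ℝ) ^ 2)) + N / (k : ℝ) ^ 2 := by
            gcongr
            refine le_trans (le_of_eq ?_) hld1
            rw [← Set.ncard_coe_finset]
            congr 2
            ext n
            simp only [Finset.coe_filter, Finset.mem_Icc, Set.mem_ofPred_eq]
            tauto
        _ = _ := by
            field_simp
  have hsum : ∑ k ∈ Finset.Icc 1 N, ∑ n ∈ B.filter (fun n => n + k ∈ B), F n (n + k) ≤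
      N * (m1 + (4 / μ ^ 2 + 1) * 2) := by
    refine (Finset.sum_le_sum hk).trans ?_
    rw [← Finset.mul_sum, Finset.sum_add_distrib, ← Finset.mul_sum]
    have h1 : ∑ k ∈ Finset.Icc 1 N, (if k < m1 then (1 : ℝ) else 0) ≤ m1 := by
      rw [← Finset.sum_filter, Finset.sum_const, nsmul_eq_mul, mul_one]
      have h2 : (Finset.Icc 1 N).filter (fun k => k < m1) ⊆ Finset.range m1 := by
        intro k hk
        rw [Finset.mem_filter] at hk
        exact Finset.mem_range.2 hk.2
      have := Finset.card_le_card h2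
      rw [Finset.card_range] at this
      exact_mod_cast this
    have h2 := sq_sum N
    gcongr
  have hX : (N : ℝ) * (1 + 2 * (m1 + (4 / μ ^ 2 + 1) * 2)) ≤
      C0 * XV V * (1 + 2 * (m1 + (4 / μ ^ 2 + 1) * 2)) := by
    gcongr
  calc ∑ n ∈ B, F n n + 2 * ∑ k ∈ Finset.Icc 1 N, ∑ n ∈ B.filter (fun n => n + k ∈ B), F n (n + k)
      ≤ N + 2 * (N * (m1 + (4 / μ ^ 2 + 1) * 2)) := by gcongr
    _ = (N : ℝ) * (1 + 2 * (m1 + (4 / μ ^ 2 + 1) * 2)) := by ring
    _ ≤ _ := hX
    _ = _ := by ring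

end Pool.Agent.X101.NR
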