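import Pool.Agent.X101.NR.Ks
import Pool.Agent.X101.NR.Fam

/-! The pair sums without weight, and the smallness of a linear statistic. -/

set_option autoImplicit false

open Filter Set MeasureTheory FourierTransform

namespace Pool.Agent.X101.NR

open SG (ord NZ)
open LG.CU (del)
open Pool.Agent.Y747 (Bx mem_Bx)
open Pool.Agent.TH873.EW (XV)

lemma ctr_even (g : ℝ → ℝ) (x : ℝ) : ctr g (-x) = ctr g x := by
  unfold ctr
  congr 2
  funext t
  rw [show 2 * Real.pi * -x * t = -(2 * Real.pi * x * t) by ring, Real.cos_neg]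

/-- decay of the cosine transform -/
lemma ctr_decay {g : ℝ → ℝ} (hg : Adm g) : ∃ C : ℝ, 0 < C ∧ ∀ x, |ctr g x| ≤ C / (1 + x ^ 2) ^ 2 := by
  set G := (HH_supp hg {0} (fun _ => 0)).toSchwartzMap (HH_smooth hg {0} (fun _ => 0)) with hG
  have h1 : ∀ s, ‖(𝓕 G) s‖ = |ctr g s| := by
    intro s
    have h2 : (𝓕 G) s = 𝓕 (HH g {0} (fun _ => 0)) s := rfl
    rw [h2, four_HH hg, Complex.norm_real, Real.norm_eq_abs]
    unfold LS
    rw [Finset.sum_singleton, zero_sub, ctr_even]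
  obtain ⟨C0, hC0, h0⟩ := (𝓕 G).decay 0 0
  obtain ⟨C4, hC4, h4⟩ := (𝓕 G).decay 4 0
  refine ⟨2 * (C0 + C4), by positivity, fun x => ?_⟩
  have a0 := h0 x
  have a4 := h4 x
  rw [norm_iteratedFDeriv_zero, h1, pow_zero, one_mul] at a0
  rw [norm_iteratedFDeriv_zero, h1, Real.norm_eq_abs] at a4
  have e4 : |x| ^ 4 = x ^ 4 := by
    rw [show |x| ^ 4 = (|x| ^ 2) ^ 2 by ring, sq_abs]; ring
  rw [e4] at a4
  rw [le_div_iff₀ (by positivity)]
  have h5 : (1 + x ^ 2) ^ 2 ≤ 2 * (1 + x ^ 4) := by nlinarith [sq_nonneg (1 - x ^ 2)]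
  calc |ctr g x| * (1 + x ^ 2) ^ 2 ≤ |ctr g x| * (2 * (1 + x ^ 4)) := by gcongr
    _ = 2 * (|ctr g x| + x ^ 4 * |ctr g x|) := by ring
    _ ≤ 2 * (C0 + C4) := by gcongr

/-- the rescaled ordinates -/
noncomputable def wV (μ V : ℝ) (n : ℕ) : ℝ := μ * Real.log V / (2 * Real.pi) * ord n

lemma wV_sub (μ V : ℝ) (n m : ℕ) : wV μ V n - wV μ V m =
    μ * Real.log V / (2 * Real.pi) * (ord n - ord m) := by
  unfold wV; ring

lemma XV_pos {V : ℝ} (hV : 10 ≤ V) : 0 < XV V := by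
  have h1 : 0 < Real.log V := Real.log_pos (by linarith)
  have h2 : 0 < V - 2 := by linarith
  unfold Pool.Agent.TH873.EW.XV
  positivity

/-- pair sums of a block, without weight -/
theorem blk_sum (RH : RiemannHypothesis) {g : ℝ → ℝ} (hg : Adm g) {μ ε : ℝ} (hμ : 0 < μ)
    (hμ1 : μ < 1) (hε : 0 < ε) :
    ∃ V0 : ℝ, 10 ≤ V0 ∧ ∀ V : ℝ, V0 ≤ V →
      |∑ n ∈ Bx V, ∑ m ∈ Bx V, ctr g (wV μ V n - wV μ V m) -
        XV V * (g 0 / μ + 2 * μ * ∫ t in (0 : ℝ)..1, t * g t)| ≤ ε * XV V := by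
  obtain ⟨Cd, hCd, hd⟩ := ctr_decay hg
  obtain ⟨Ck, V1, hCk, hV1, hk⟩ := ks RH hμ
  obtain ⟨V2, hV2, hp⟩ := Pool.Agent.Y747.blk_pair RH (hg.smooth.of_le (by simp)) (hg.supp 1 (by simp))
    hμ hμ1 (half_pos hε)
  set A : ℝ := Real.pi ^ 2 * Cd * Ck / μ ^ 2 with hA
  have hA0 : 0 < A := by positivity
  have hlim : ∀ᶠ V in atTop, 2 * A / ε ≤ Real.log V ∧ 1 ≤ Real.log V :=
    (Real.tendsto_log_atTop.eventually_ge_atTop _).and (Real.tendsto_log_atTop.eventually_ge_atTop _)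
  obtain ⟨V3, hV3⟩ := hlim.exists_forall_of_atTop
  refine ⟨max (max V1 V2) V3, hV1.trans ((le_max_left _ _).trans (le_max_left _ _)), fun V hV => ?_⟩
  have hVV1 : V1 ≤ V := ((le_max_left _ _).trans (le_max_left _ _)).trans hV
  have hVV2 : V2 ≤ V := ((le_max_right _ _).trans (le_max_left _ _)).trans hV
  have hVV3 : V3 ≤ V := (le_max_right _ _).trans hV
  have hV10 : 10 ≤ V := hV1.trans hVV1
  obtain ⟨_, b2⟩ := hp V hVV2
  have b1 := hk V hVV1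
  obtain ⟨l1, l2⟩ := hV3 V hVV3
  set L := Real.log V with hL
  have hL0 : 0 < L := by linarith
  have hX := XV_pos hV10
  have hdiff : |∑ n ∈ Bx V, ∑ m ∈ Bx V, ctr g (wV μ V n - wV μ V m) -
      ∑ n ∈ Bx V, ∑ m ∈ Bx V, Real.exp (-(ord n - ord m) ^ 2 / 4) *
        ctr g (μ * L / (2 * Real.pi) * (ord n - ord m))| ≤ ε / 2 * XV V := by
    rw [← Finset.sum_sub_distrib]
    simp_rw [← Finset.sum_sub_distrib]
    refine (Finset.abs_sum_le_sum_abs _ _).trans ?_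
    have h1 : ∀ n ∈ Bx V, |∑ m ∈ Bx V, (ctr g (wV μ V n - wV μ V m) -
        Real.exp (-(ord n - ord m) ^ 2 / 4) * ctr g (μ * L / (2 * Real.pi) * (ord n - ord m)))| ≤
        ∑ m ∈ Bx V, Real.pi ^ 2 * Cd / (μ ^ 2 * L ^ 2) *
          (1 / (1 + (μ * L / (2 * Real.pi) * (ord n - ord m)) ^ 2)) := by
      intro n _
      refine (Finset.abs_sum_le_sum_abs _ _).trans ?_
      refine Finset.sum_le_sum fun m _ => ?_
      rw [wV_sub]
      set d := ord n - ord m with hdd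
      set w := μ * L / (2 * Real.pi) * d with hw
      have h2 : ctr g w - Real.exp (-d ^ 2 / 4) * ctr g w = (1 - Real.exp (-d ^ 2 / 4)) * ctr g w := by
        ring
      rw [h2, abs_mul]
      have h3 : |1 - Real.exp (-d ^ 2 / 4)| ≤ d ^ 2 / 4 := by
        have h4 : Real.exp (-d ^ 2 / 4) ≤ 1 := Real.exp_le_one_iff.2 (by nlinarith [sq_nonneg d])
        have h5 := Real.add_one_le_exp (-d ^ 2 / 4)
        rw [abs_of_nonneg (by linarith)]
        linarith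
      have h4 : d ^ 2 / 4 = Real.pi ^ 2 / (μ ^ 2 * L ^ 2) * w ^ 2 := by
        rw [hw]
        have := Real.pi_pos
        field_simp
        ring
      rw [h4] at h3
      have h5 : w ^ 2 * (Cd / (1 + w ^ 2) ^ 2) ≤ Cd * (1 / (1 + w ^ 2)) := by
        have h6 : w ^ 2 * (Cd / (1 + w ^ 2) ^ 2) = Cd * (1 / (1 + w ^ 2)) * (w ^ 2 / (1 + w ^ 2)) := by
          field_simp
        rw [h6]
        have h7 : w ^ 2 / (1 + w ^ 2) ≤ 1 := by
          rw [div_le_one (by positivity)]; linarith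
        have h8 : 0 ≤ Cd * (1 / (1 + w ^ 2)) := by positivity
        exact mul_le_of_le_one_right h8 h7
      calc |1 - Real.exp (-d ^ 2 / 4)| * |ctr g w| ≤
          (Real.pi ^ 2 / (μ ^ 2 * L ^ 2) * w ^ 2) * (Cd / (1 + w ^ 2) ^ 2) := by
            gcongr
            exact hd w
        _ = Real.pi ^ 2 / (μ ^ 2 * L ^ 2) * (w ^ 2 * (Cd / (1 + w ^ 2) ^ 2)) := by ring
        _ ≤ Real.pi ^ 2 / (μ ^ 2 * L ^ 2) * (Cd * (1 / (1 + w ^ 2))) := by gcongr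
        _ = _ := by ring
    refine (Finset.sum_le_sum h1).trans ?_
    simp_rw [← Finset.mul_sum]
    calc Real.pi ^ 2 * Cd / (μ ^ 2 * L ^ 2) * ∑ n ∈ Bx V, ∑ m ∈ Bx V,
          1 / (1 + (μ * L / (2 * Real.pi) * (ord n - ord m)) ^ 2)
        ≤ Real.pi ^ 2 * Cd / (μ ^ 2 * L ^ 2) * (Ck * XV V) := by gcongr
      _ = A / L ^ 2 * XV V := by rw [hA]; field_simp
      _ ≤ ε / 2 * XV V := by
        apply mul_le_mul_of_nonneg_right _ hX.le
        rw [div_le_iff₀ (by positivity)]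
        rw [div_le_iff₀ hε] at l1
        nlinarith
  have hmain : |∑ n ∈ Bx V, ∑ m ∈ Bx V, Real.exp (-(ord n - ord m) ^ 2 / 4) *
        ctr g (μ * L / (2 * Real.pi) * (ord n - ord m)) -
        XV V * (g 0 / μ + 2 * μ * ∫ t in (0 : ℝ)..1, t * g t)| ≤ ε / 2 * XV V := b2
  have h9 := abs_add_le (∑ n ∈ Bx V, ∑ m ∈ Bx V, ctr g (wV μ V n - wV μ V m) -
      ∑ n ∈ Bx V, ∑ m ∈ Bx V, Real.exp (-(ord n - ord m) ^ 2 / 4) *
        ctr g (μ * L / (2 * Real.pi) * (ord n - ord m)))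
    (∑ n ∈ Bx V, ∑ m ∈ Bx V, Real.exp (-(ord n - ord m) ^ 2 / 4) *
        ctr g (μ * L / (2 * Real.pi) * (ord n - ord m)) -
        XV V * (g 0 / μ + 2 * μ * ∫ t in (0 : ℝ)..1, t * g t))
  rw [sub_add_sub_cancel] at h9
  linarith

lemma adm_sq {f : ℝ → ℝ} (hf : Adm f) : Adm (fun t => f t ^ 2) :=
  ⟨hf.smooth.pow 2, fun t => by rw [hf.even], fun t ht => by rw [hf.supp t ht]; norm_num⟩

lemma adm_dsq {f : ℝ → ℝ} (hf : Adm f) : Adm (fun t => 4 * Real.pi ^ 2 * t ^ 2 * f t ^ 2) :=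
  ⟨(contDiff_const.mul (contDiff_id.pow 2)).mul (hf.smooth.pow 2),
    fun t => by rw [hf.even]; ring, fun t ht => by rw [hf.supp t ht]; ring⟩

/-- close pairs -/
lemma PC_le (RH : RiemannHypothesis) {μ : ℝ} (hμ : 0 < μ) (hμ1 : μ < 1) : ∃ C V0 : ℝ, 0 < C ∧ 10 ≤ V0 ∧
    ∀ V : ℝ, V0 ≤ V → PC (Bx V) (wV μ V) μ ≤ C * XV V := by
  obtain ⟨Ck, V1, hCk, hV1, hk⟩ := ks RH hμ
  refine ⟨2 * Ck, V1, by positivity, hV1, fun V hV => ?_⟩
  have h1 := hk V hV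
  unfold PC
  calc _ ≤ ∑ n ∈ Bx V, ∑ m ∈ Bx V, 2 * (1 / (1 + (μ * Real.log V / (2 * Real.pi) * (ord n - ord m)) ^ 2)) := by
        refine Finset.sum_le_sum fun n _ => Finset.sum_le_sum fun m _ => ?_
        split_ifs with h
        · rw [wV_sub] at h
          set w := μ * Real.log V / (2 * Real.pi) * (ord n - ord m) with hw
          have h2 : w ^ 2 ≤ 1 := by
            rw [← sq_abs]
            have h3 : |w| ≤ 1 := h.trans hμ1.le
            have h4 := abs_nonneg w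
            nlinarith
          rw [mul_one_div, le_div_iff₀ (by positivity)]
          linarith
        · positivity
    _ = 2 * ∑ n ∈ Bx V, ∑ m ∈ Bx V, (1 / (1 + (μ * Real.log V / (2 * Real.pi) * (ord n - ord m)) ^ 2)) := by
        simp_rw [← Finset.mul_sum]
    _ ≤ 2 * (Ck * XV V) := by gcongr
    _ = _ := by ring

/-- **a linear statistic which is almost constantly small** -/
theorem lin_small (RH : RiemannHypothesis) {μ η : ℝ} (hμ : 0 < μ) (hμ1 : μ < 1) (hη : 0 < η) :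
    ∃ f : ℝ → ℝ, Adm f ∧ (∀ t, 0 ≤ f t) ∧ 2 * ∫ t in (0 : ℝ)..1, f t = 1 ∧
      ∃ V0 : ℝ, 10 ≤ V0 ∧ ∀ V : ℝ, V0 ≤ V →
        ∑ n ∈ Bx V, |LS f (Bx V) (wV μ V) (wV μ V n)| ≤ η * XV V := by
  obtain ⟨Cp, V1, hCp, hV1, hpc⟩ := PC_le RH hμ hμ1
  set θ : ℝ := η / (μ * Cp) with hθ
  have hθ0 : 0 < θ := by positivity
  have hpi := Real.pi_pos
  set D : ℝ := (1 / θ) * ((1 / μ ^ 2) * (μ + 1) + (4 * Real.pi ^ 2 * μ + 1)) with hD
  have hD0 : 0 < D := by positivity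
  set κ : ℝ := η / (2 * D) with hκ
  have hκ0 : 0 < κ := by positivity
  obtain ⟨f, hf, hf0, hf00, hf1, hf2⟩ := family hκ0
  obtain ⟨V2, hV2, hs1⟩ := blk_sum RH (adm_sq hf) hμ hμ1 hκ0
  obtain ⟨V3, hV3, hs2⟩ := blk_sum RH (adm_dsq hf) hμ hμ1 hκ0
  refine ⟨f, hf, hf0, hf1, max (max V1 V2) V3,
    hV1.trans ((le_max_left _ _).trans (le_max_left _ _)), fun V hV => ?_⟩
  have hVV1 : V1 ≤ V := ((le_max_left _ _).trans (le_max_left _ _)).trans hV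
  have hVV2 : V2 ≤ V := ((le_max_right _ _).trans (le_max_left _ _)).trans hV
  have hVV3 : V3 ≤ V := (le_max_right _ _).trans hV
  have hV10 : 10 ≤ V := hV1.trans hVV1
  have hX := XV_pos hV10
  have hfc := hf.cont
  have i1 : ∫ t in (0 : ℝ)..1, t * (4 * Real.pi ^ 2 * t ^ 2 * f t ^ 2) ≤
      4 * Real.pi ^ 2 * ∫ t in (0 : ℝ)..1, t * f t ^ 2 := by
    rw [← intervalIntegral.integral_const_mul]
    apply intervalIntegral.integral_mono_on zero_le_one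
    · apply Continuous.intervalIntegrable
      fun_prop
    · apply Continuous.intervalIntegrable
      fun_prop
    · intro t ht
      have h1 : t ^ 2 ≤ 1 := by nlinarith [ht.1, ht.2]
      have h2 : 0 ≤ 4 * Real.pi ^ 2 * (t * f t ^ 2) :=
        mul_nonneg (by positivity) (mul_nonneg ht.1 (sq_nonneg _))
      calc t * (4 * Real.pi ^ 2 * t ^ 2 * f t ^ 2) = (4 * Real.pi ^ 2 * (t * f t ^ 2)) * t ^ 2 := by ring
        _ ≤ (4 * Real.pi ^ 2 * (t * f t ^ 2)) * 1 := by gcongr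
        _ = _ := mul_one _
  have a1 := (abs_le.1 (hs1 V hVV2)).2
  have a2 := (abs_le.1 (hs2 V hVV3)).2
  have a3 := hpc V hVV1
  simp only [hf00] at a1 a2
  have b1 : ∑ n ∈ Bx V, ∑ m ∈ Bx V, ctr (fun t => f t ^ 2) (wV μ V n - wV μ V m) ≤
      (μ + 1) * κ * XV V := by
    have h1 : XV V * (0 ^ 2 / μ + 2 * μ * ∫ t in (0 : ℝ)..1, t * f t ^ 2) ≤ XV V * (μ * κ) := by
      gcongr
      have : μ * (2 * ∫ t in (0 : ℝ)..1, t * f t ^ 2) ≤ μ * κ := by gcongr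
      have h3 : (0 : ℝ) ^ 2 / μ = 0 := by norm_num
      rw [h3]
      linarith
    nlinarith
  have b2 : ∑ n ∈ Bx V, ∑ m ∈ Bx V, ctr (fun t => 4 * Real.pi ^ 2 * t ^ 2 * f t ^ 2)
      (wV μ V n - wV μ V m) ≤ (4 * Real.pi ^ 2 * μ + 1) * κ * XV V := by
    have h1 : XV V * (4 * Real.pi ^ 2 * 0 ^ 2 * 0 ^ 2 / μ +
        2 * μ * ∫ t in (0 : ℝ)..1, t * (4 * Real.pi ^ 2 * t ^ 2 * f t ^ 2)) ≤
        XV V * (4 * Real.pi ^ 2 * μ * κ) := by
      gcongr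
      have h4 : μ * (2 * ∫ t in (0 : ℝ)..1, t * (4 * Real.pi ^ 2 * t ^ 2 * f t ^ 2)) ≤
          μ * (2 * (4 * Real.pi ^ 2 * ∫ t in (0 : ℝ)..1, t * f t ^ 2)) := by gcongr
      have h5 : 4 * Real.pi ^ 2 * μ * (2 * ∫ t in (0 : ℝ)..1, t * f t ^ 2) ≤
          4 * Real.pi ^ 2 * μ * κ := by gcongr
      have h3 : 4 * Real.pi ^ 2 * (0 : ℝ) ^ 2 * 0 ^ 2 / μ = 0 := by norm_num
      rw [h3]
      linarith
    nlinarith
  have h0 := sob hf (Bx V) (wV μ V) hμ hθ0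
  refine h0.trans ?_
  calc (1 / θ) * ((1 / μ ^ 2) * ∑ n ∈ Bx V, ∑ m ∈ Bx V, ctr (fun t => f t ^ 2) (wV μ V n - wV μ V m) +
        ∑ n ∈ Bx V, ∑ m ∈ Bx V, ctr (fun t => 4 * Real.pi ^ 2 * t ^ 2 * f t ^ 2)
          (wV μ V n - wV μ V m)) + θ / 2 * (μ * PC (Bx V) (wV μ V) μ)
      ≤ (1 / θ) * ((1 / μ ^ 2) * ((μ + 1) * κ * XV V) + (4 * Real.pi ^ 2 * μ + 1) * κ * XV V) +
        θ / 2 * (μ * (Cp * XV V)) := by gcongr
    _ = (D * κ + θ / 2 * (μ * Cp)) * XV V := by rw [hD]; ring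
    _ = η * XV V := by
      have e1 : D * κ = η / 2 := by rw [hκ]; field_simp
      have e2 : θ / 2 * (μ * Cp) = η / 2 := by rw [hθ]; field_simp
      rw [e1, e2]; ring

end Pool.Agent.X101.NR
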